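import Mathlib
import Pool.Agent.Helper8.Order.Eval
import Pool.Agent.Helper8.Transfer.Defs

/-!
# Correlation systems of almost Liouville functions: definitions
-/

namespace Pool.Agent.Helper8.Classify

open Finset Filter Topology Pool.Agent.Helper8.Dilation Pool.Agent.Helper8.Order

/-- `C S` (for finite sets `S`) are the correlations `E ∏_{s ∈ S} x(s)` of a stationary process `x`
with values `±1`, and they satisfy `C (p S) = (σ p) ^ |S| C S` for all primes `p`. -/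
structure DilationSystem (σ : ℕ → ℝ) (C : Finset ℕ → ℝ) : Prop where
  empty : C ∅ = 1
  shift : ∀ S : Finset ℕ, C (S.image (fun s => s + 1)) = C S
  dilate : ∀ p : ℕ, p.Prime → ∀ S : Finset ℕ, C (S.image (fun s => p * s)) = σ p ^ S.card * C S
  pos : ∀ (T : Finset ℕ) (v : ℕ → ℝ), (∀ n, v n = 1 ∨ v n = -1) →
    0 ≤ ∑ S ∈ T.powerset, C S * ∏ s ∈ S, v s

/-- exponent level of the prime `p` at `n` -/
noncomputable def lev (E : ℕ) (D : ℕ → ℝ) (p n : ℕ) : ℕ := ⌊D p * Real.log n⌋₊ % E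

/-- the multiplier `∏ p ^ (E - 1 - lev p n)` -/
noncomputable def am (Q : Finset ℕ) (E : ℕ) (D : ℕ → ℝ) (n : ℕ) : ℕ :=
  ∏ p ∈ Q, p ^ (E - 1 - lev E D p n)

/-- the sign `σ(am n)` -/
noncomputable def sg (σ : ℕ → ℝ) (Q : Finset ℕ) (E : ℕ) (D : ℕ → ℝ) (n : ℕ) : ℝ :=
  ∏ p ∈ Q, σ p ^ (E - 1 - lev E D p n)

/-- the function of a stage: `σ(a) X(a n)` with `a = am n` -/
noncomputable def cs (σ : ℕ → ℝ) (Q : Finset ℕ) (E : ℕ) (D : ℕ → ℝ) (X : ℕ → ℝ) (n : ℕ) : ℝ :=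
  sg σ Q E D n * X (am Q E D n * n)

/-- the glued function -/
noncomputable def gl (c : ℕ → ℕ → ℝ) (δ : ℕ → ℝ) (n : ℕ) : ℝ :=
  if ⌊δ (I n) * Real.log n⌋
      = ⌊δ (I n) * Real.log n - ((J n - I n * I n : ℕ) : ℝ) / (2 * (I n : ℝ) + 1)⌋
    then c (I n) n else c (I n + 1) n

end Pool.Agent.Helper8.Classify
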