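import Mathlib
import Pool.Agent.Helper8.Classify.Defs

/-!
# Joint correlation systems: correlations along arithmetic progressions
-/

namespace Pool.Agent.Helper8.Classify

open Finset Filter Topology Pool.Agent.Helper8.Dilation Pool.Agent.Helper8.Order

/-- `c q r S` are the numbers `E (1_{z ≡ r mod q} ∏_{s ∈ S} x(s))` for a stationary process of
integers `z + n` modulo all `q` and signs `x(n) = ±1`, invariant (up to the signs `σ p`) under the
dilations `n ↦ p n`: the process `(σ p) x(p n)`, given that `p ∣ z`, with residues `z / p`, has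
the same law. -/
structure JointSystem (σ : ℕ → ℝ) (c : ℕ → ℕ → Finset ℕ → ℝ) : Prop where
  empty : ∀ q r : ℕ, 1 ≤ q → c q r ∅ = 1 / q
  period : ∀ (q r : ℕ) (S : Finset ℕ), 1 ≤ q → c q (r + q) S = c q r S
  refine : ∀ (q m r : ℕ) (S : Finset ℕ), 1 ≤ q → 1 ≤ m →
    ∑ i ∈ range m, c (q * m) (r + q * i) S = c q r S
  shift : ∀ (q r : ℕ) (S : Finset ℕ), 1 ≤ q → c q r (S.image (fun s => s + 1)) = c q (r + 1) S
  dilate : ∀ p : ℕ, p.Prime → ∀ (q r : ℕ) (S : Finset ℕ), 1 ≤ q →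
    c (p * q) (p * r) (S.image (fun s => p * s)) = σ p ^ S.card * c q r S / p
  pos : ∀ (q r : ℕ), 1 ≤ q → ∀ (T : Finset ℕ) (v : ℕ → ℝ), (∀ n, v n = 1 ∨ v n = -1) →
    0 ≤ ∑ S ∈ T.powerset, c q r S * ∏ s ∈ S, v s

/-- `f` has values `±1` and, for each prime `p`, `f (p n) = σ p * f n` for all `n` outside a set of
natural density zero. -/
def AlmostMult (σ : ℕ → ℝ) (f : ℕ → ℝ) : Prop :=
  (∀ n, f n = 1 ∨ f n = -1) ∧ ∀ p : ℕ, p.Prime → DensityZero {n | f (p * n) ≠ σ p * f n}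

/-- `f` has values `±1` and `f (p n) = σ p * f n` for all `p ∈ P` and all `n ≥ 1`. -/
def MultOn (σ : ℕ → ℝ) (P : Set ℕ) (f : ℕ → ℝ) : Prop :=
  (∀ n, f n = 1 ∨ f n = -1) ∧ ∀ p ∈ P, ∀ n : ℕ, 1 ≤ n → f (p * n) = σ p * f n

/-- the modulus at `n` -/
noncomputable def md (Q : Finset ℕ) (E : ℕ) (D : ℕ → ℝ) (M : ℕ) (n : ℕ) : ℕ := M / am Q E D n

/-- the conditional correlation at `n` -/
noncomputable def kap (c : ℕ → ℕ → Finset ℕ → ℝ) (Q : Finset ℕ) (E : ℕ) (D : ℕ → ℝ) (M : ℕ)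
    (S : Finset ℕ) (n : ℕ) : ℝ :=
  (md Q E D M n : ℝ) * c (md Q E D M n) n S

/-- the glued modulus -/
noncomputable def glN (m : ℕ → ℕ → ℕ) (δ : ℕ → ℝ) (n : ℕ) : ℕ :=
  if ⌊δ (I n) * Real.log n⌋
      = ⌊δ (I n) * Real.log n - ((J n - I n * I n : ℕ) : ℝ) / (2 * (I n : ℝ) + 1)⌋
    then m (I n) n else m (I n + 1) n

end Pool.Agent.Helper8.Classify
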