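import Mathlib
import Pool.Agent.Helper8.Classify.Defs
import Pool.Agent.Helper8.Transfer.SeqW
import Pool.Agent.Helper71.Classify.Good
import Pool.Agent.Helper6.Classify.Word

/-!
# The function of a stage
-/

namespace Pool.Agent.Helper8.Classify

open Finset Filter Topology Pool.Agent.Helper8.Dilation Pool.Agent.Helper8.Order
  Pool.Agent.Helper8.Transfer

lemma am_pos (Q : Finset ℕ) (hQ : ∀ p ∈ Q, p.Prime) (E : ℕ) (D : ℕ → ℝ) (n : ℕ) :
    1 ≤ am Q E D n :=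
  Finset.prod_pos fun p hp => pow_pos (hQ p hp).pos _

lemma am_le (Q : Finset ℕ) (hQ : ∀ p ∈ Q, p.Prime) (E : ℕ) (D : ℕ → ℝ) (n : ℕ) :
    am Q E D n ≤ ∏ p ∈ Q, p ^ (E - 1) := by
  unfold am
  exact Finset.prod_le_prod' fun p hp => Nat.pow_le_pow_right (hQ p hp).pos (by omega)

lemma sg_pm (σ : ℕ → ℝ) (hσ : ∀ p, σ p = 1 ∨ σ p = -1) (Q : Finset ℕ) (E : ℕ) (D : ℕ → ℝ) (n : ℕ) :
    sg σ Q E D n = 1 ∨ sg σ Q E D n = -1 := by
  classical
  unfold sg
  induction Q using Finset.induction_on with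
  | empty => simp
  | insert b s hb ih =>
    rw [Finset.prod_insert hb]
    have h1 : σ b ^ (E - 1 - lev E D b n) = 1 ∨ σ b ^ (E - 1 - lev E D b n) = -1 := by
      rcases hσ b with h | h
      · left; rw [h, one_pow]
      · rw [h]; exact neg_one_pow_eq_or ℝ _
    rcases h1 with h1 | h1 <;> rcases ih with h2 | h2 <;> rw [h1, h2] <;> norm_num

lemma C_shift {σ : ℕ → ℝ} {C : Finset ℕ → ℝ} (hC : DilationSystem σ C) (S : Finset ℕ) (m : ℕ) :
    C (S.image (fun s => m + s)) = C S := by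
  induction m with
  | zero => simp
  | succ m ih =>
    have h1 : S.image (fun s => m + 1 + s) = (S.image (fun s => m + s)).image (fun s => s + 1) := by
      rw [Finset.image_image]
      refine Finset.image_congr fun s _ => ?_
      simp only [Function.comp]
      ring
    rw [h1, hC.shift, ih]

lemma C_pow {σ : ℕ → ℝ} {C : Finset ℕ → ℝ} (hC : DilationSystem σ C) (p : ℕ) (hp : p.Prime) (e : ℕ)
    (S : Finset ℕ) : C (S.image (fun s => p ^ e * s)) = (σ p ^ e) ^ S.card * C S := by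
  induction e with
  | zero => simp
  | succ e ih =>
    have h1 : S.image (fun s => p ^ (e + 1) * s)
        = (S.image (fun s => p ^ e * s)).image (fun s => p * s) := by
      rw [Finset.image_image]
      refine Finset.image_congr fun s _ => ?_
      simp only [Function.comp]
      ring
    rw [h1, hC.dilate p hp, ih, Finset.card_image_of_injective]
    · ring
    · intro a b hab
      exact Nat.eq_of_mul_eq_mul_left (pow_pos hp.pos e) hab

lemma C_prod {σ : ℕ → ℝ} {C : Finset ℕ → ℝ} (hC : DilationSystem σ C) (Q : Finset ℕ)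
    (hQ : ∀ p ∈ Q, p.Prime) (e : ℕ → ℕ) (S : Finset ℕ) :
    C (S.image (fun s => (∏ p ∈ Q, p ^ e p) * s)) = (∏ p ∈ Q, σ p ^ e p) ^ S.card * C S := by
  classical
  induction Q using Finset.induction_on with
  | empty => simp
  | insert b s hb ih =>
    have hb' : b.Prime := hQ b (Finset.mem_insert_self _ _)
    have hs : ∀ p ∈ s, p.Prime := fun p hp => hQ p (Finset.mem_insert_of_mem hp)
    have h1 : S.image (fun x => (∏ p ∈ insert b s, p ^ e p) * x)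
        = (S.image (fun x => (∏ p ∈ s, p ^ e p) * x)).image (fun x => b ^ e b * x) := by
      rw [Finset.image_image]
      refine Finset.image_congr fun x _ => ?_
      simp only [Function.comp]
      rw [Finset.prod_insert hb]
      ring
    rw [h1, C_pow hC b hb', ih hs, Finset.card_image_of_injective, Finset.prod_insert hb]
    · ring
    · intro x y hxy
      exact Nat.eq_of_mul_eq_mul_left (Finset.prod_pos fun p hp => pow_pos (hs p hp).pos _) hxy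

lemma C_am {σ : ℕ → ℝ} {C : Finset ℕ → ℝ} (hC : DilationSystem σ C) (Q : Finset ℕ)
    (hQ : ∀ p ∈ Q, p.Prime) (E : ℕ) (D : ℕ → ℝ) (S : Finset ℕ) (n : ℕ) :
    C (S.image (fun s => am Q E D n * s)) = sg σ Q E D n ^ S.card * C S :=
  C_prod hC Q hQ (fun p => E - 1 - lev E D p n) S

/-- the signs of a word -/
noncomputable def ws (R : Finset ℕ) (m : ℕ) : ℝ := if m ∈ R then -1 else 1

lemma ws_pm (R : Finset ℕ) (m : ℕ) : ws R m = 1 ∨ ws R m = -1 := by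
  unfold ws; split_ifs <;> simp

lemma mean_zero {σ : ℕ → ℝ} (hσ : ∀ p, σ p = 1 ∨ σ p = -1) {C : Finset ℕ → ℝ}
    (hC : DilationSystem σ C) (Q : Finset ℕ) (hQ : ∀ p ∈ Q, p.Prime) (E : ℕ) (D : ℕ → ℝ)
    (T : Finset ℕ) (P : Finset ℕ → ℝ) (hP1 : ∑ R ∈ T.powerset, P R = 1)
    (hP : ∀ S ⊆ T, ∑ R ∈ T.powerset, P R * ∏ s ∈ S, (if s ∈ R then (-1 : ℝ) else 1) = C S)
    (S : Finset ℕ) (n : ℕ) (hS : ∀ s ∈ S, am Q E D n * (n + s) ∈ T) :
    ∑ R ∈ T.powerset, P R * (∏ s ∈ S, (sg σ Q E D n * ws R (am Q E D n * (n + s))) - C S) = 0 := by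
  classical
  have ham := am_pos Q hQ E D n
  have hinj : Function.Injective (fun s => am Q E D n * (n + s)) := by
    intro a b hab
    have := Nat.eq_of_mul_eq_mul_left ham hab
    omega
  have h1 : C (S.image (fun s => am Q E D n * (n + s))) = sg σ Q E D n ^ S.card * C S := by
    have h2 : S.image (fun s => am Q E D n * (n + s))
        = (S.image (fun s => am Q E D n * s)).image (fun s => am Q E D n * n + s) := by
      rw [Finset.image_image]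
      refine Finset.image_congr fun x _ => ?_
      simp only [Function.comp]
      ring
    rw [h2, C_shift hC, C_am hC Q hQ]
  have h3 := hP (S.image (fun s => am Q E D n * (n + s))) (by
    intro t ht
    rw [Finset.mem_image] at ht
    obtain ⟨s, hs, rfl⟩ := ht
    exact hS s hs)
  have h4 : ∀ R : Finset ℕ, ∏ s ∈ S.image (fun s => am Q E D n * (n + s)),
      (if s ∈ R then (-1 : ℝ) else 1) = ∏ s ∈ S, ws R (am Q E D n * (n + s)) := by
    intro R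
    rw [Finset.prod_image (fun a _ b _ hab => hinj hab)]
    rfl
  have h5 : sg σ Q E D n ^ S.card * sg σ Q E D n ^ S.card = 1 := by
    rw [← mul_pow]
    rcases sg_pm σ hσ Q E D n with h | h <;> rw [h] <;> norm_num
  calc ∑ R ∈ T.powerset, P R * (∏ s ∈ S, (sg σ Q E D n * ws R (am Q E D n * (n + s))) - C S)
      = sg σ Q E D n ^ S.card * (∑ R ∈ T.powerset, P R * ∏ s ∈ S, ws R (am Q E D n * (n + s)))
        - (∑ R ∈ T.powerset, P R) * C S := by
        rw [Finset.mul_sum, Finset.sum_mul, ← Finset.sum_sub_distrib]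
        refine Finset.sum_congr rfl fun R _ => ?_
        rw [Finset.prod_mul_distrib, Finset.prod_const]
        ring
    _ = sg σ Q E D n ^ S.card * (sg σ Q E D n ^ S.card * C S) - 1 * C S := by
        rw [hP1, ← h1, ← h3]
        congr 2
        refine Finset.sum_congr rfl fun R _ => ?_
        rw [h4]
    _ = 0 := by rw [← mul_assoc, h5]; ring

/-- `n` is good if the multiplier does not change on `[n, n + k]` and if `a n, …, a (n + k)` lie
between two consecutive squares. -/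
def Good (σ : ℕ → ℝ) (Q : Finset ℕ) (E : ℕ) (D : ℕ → ℝ) (k n : ℕ) : Prop :=
  ∀ s ≤ k, am Q E D (n + s) = am Q E D n ∧ sg σ Q E D (n + s) = sg σ Q E D n ∧
    Nat.sqrt (am Q E D n * (n + s)) = Nat.sqrt (am Q E D n * n)

lemma cross_card (a t k : ℕ) (ha : 1 ≤ a) (s : Finset ℕ) :
    (s.filter (fun n => a * n < t * t ∧ t * t ≤ a * (n + k))).card ≤ k + 1 := by
  have h : s.filter (fun n => a * n < t * t ∧ t * t ≤ a * (n + k))
      ⊆ Icc (t * t / a - k) (t * t / a) := by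
    intro n hn
    rw [Finset.mem_filter] at hn
    rw [Finset.mem_Icc]
    obtain ⟨_, h1, h2⟩ := hn
    refine ⟨?_, ?_⟩
    · have : t * t / a ≤ n + k := Nat.div_le_of_le_mul h2
      omega
    · rw [Nat.le_div_iff_mul_le (by omega), mul_comm]
      exact h1.le
  refine (Finset.card_le_card h).trans ?_
  rw [Nat.card_Icc]
  omega

lemma log_pow8 (k y : ℕ) (hy : 1 ≤ y) :
    Real.log ((y ^ 8 + k + 1 : ℕ) : ℝ) + 1 ≤ (k + 11 : ℕ) * (y : ℝ) ^ 4 := by
  have hyR : (1 : ℝ) ≤ y := by exact_mod_cast hy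
  have hy0 : (0 : ℝ) < y := by linarith
  have h1 : ((y ^ 8 + k + 1 : ℕ) : ℝ) ≤ ((k : ℝ) + 2) * (y : ℝ) ^ 8 := by
    push_cast
    have : (1 : ℝ) ≤ (y : ℝ) ^ 8 := one_le_pow₀ hyR
    nlinarith [(Nat.cast_nonneg k : (0 : ℝ) ≤ k)]
  have h2 : Real.log ((y ^ 8 + k + 1 : ℕ) : ℝ) ≤ (k + 1) + 8 * (y - 1) := by
    refine (Real.log_le_log (by positivity) h1).trans ?_
    rw [Real.log_mul (by positivity) (by positivity), Real.log_pow]
    have h3 := Real.log_le_sub_one_of_pos hy0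
    have h4 := Real.log_le_sub_one_of_pos (show (0 : ℝ) < (k : ℝ) + 2 by positivity)
    push_cast
    linarith
  have h5 : (y : ℝ) ≤ (y : ℝ) ^ 4 := by
    calc (y : ℝ) = (y : ℝ) ^ 1 := (pow_one _).symm
      _ ≤ (y : ℝ) ^ 4 := pow_le_pow_right₀ hyR (by norm_num)
  have hk : (0 : ℝ) ≤ k := by positivity
  have h6 : Real.log ((y ^ 8 + k + 1 : ℕ) : ℝ) + 1 ≤ (k + 2) + 8 * (y : ℝ) := by linarith
  refine h6.trans ?_
  have h7 : (1 : ℝ) ≤ (y : ℝ) ^ 4 := one_le_pow₀ hyR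
  have h8 : (k + 2) * 1 ≤ ((k : ℝ) + 2) * (y : ℝ) ^ 4 := mul_le_mul_of_nonneg_left h7 (by positivity)
  push_cast
  linarith

open Classical in
/-- There are few bad `n`. -/
lemma bad_count (σ : ℕ → ℝ) (Q : Finset ℕ) (hQ : ∀ p ∈ Q, p.Prime)
    (E : ℕ) (D : ℕ → ℝ) (B : ℝ)
    (hlev : ∀ N : ℕ, 1 ≤ N →
        (((Ico 1 N).filter fun n => ¬ (am Q E D (n + 1) = am Q E D n ∧
          sg σ Q E D (n + 1) = sg σ Q E D n)).card : ℝ) ≤ B * (Real.log N + 1)) (k : ℕ) :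
    ∃ K : ℝ, 0 < K ∧ ∀ y : ℕ, 1 ≤ y →
      (((Ioc 0 (y ^ 8)).filter fun n => ¬ Good σ Q E D k n).card : ℝ) ≤ K * (y : ℝ) ^ 4 := by
  set A : ℕ := ∏ p ∈ Q, p ^ (E - 1) with hA
  have hA1 : 1 ≤ A := Finset.prod_pos fun p hp => pow_pos (hQ p hp).pos _
  refine ⟨k * |B| * (k + 11 : ℕ) + (2 * A ^ 2 * (k + 1) ^ 2 : ℕ), by positivity, ?_⟩
  intro y hy
  have hyR : (1 : ℝ) ≤ y := by exact_mod_cast hy
  set chg : ℕ → Prop := fun n => ¬ (am Q E D (n + 1) = am Q E D n ∧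
          sg σ Q E D (n + 1) = sg σ Q E D n) with hchg
  set R := Nat.sqrt (A * (y ^ 8 + k)) with hR
  have hsub : (Ioc 0 (y ^ 8)).filter (fun n => ¬ Good σ Q E D k n) ⊆
      ((Finset.range k).biUnion fun s => (Ioc 0 (y ^ 8)).filter fun n => chg (n + s)) ∪
      ((Finset.Icc 1 A ×ˢ Finset.range (R + 1)).biUnion fun q =>
        (Ioc 0 (y ^ 8)).filter (fun n => q.1 * n < q.2 * q.2 ∧ q.2 * q.2 ≤ q.1 * (n + k))) := by
    intro n hn
    rw [Finset.mem_filter] at hn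
    obtain ⟨hnI, hbad⟩ := hn
    rw [Finset.mem_union]
    by_cases hc : ∃ s ∈ Finset.range k, chg (n + s)
    · left
      obtain ⟨s, hs, hcs⟩ := hc
      rw [Finset.mem_biUnion]
      exact ⟨s, hs, Finset.mem_filter.mpr ⟨hnI, hcs⟩⟩
    · right
      push Not at hc
      have hconst : ∀ s, s ≤ k → am Q E D (n + s) = am Q E D n ∧
          sg σ Q E D (n + s) = sg σ Q E D n := by
        intro s
        induction s with
        | zero => intro _; exact ⟨rfl, rfl⟩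
        | succ s ih =>
          intro hs
          have h1 := ih (by omega)
          have h2 := hc s (Finset.mem_range.mpr (by omega))
          rw [← add_assoc]
          exact ⟨h2.1.trans h1.1, h2.2.trans h1.2⟩
      have hne : Nat.sqrt (am Q E D n * (n + k)) ≠ Nat.sqrt (am Q E D n * n) := by
        intro he
        apply hbad
        intro s hs
        refine ⟨(hconst s hs).1, (hconst s hs).2, ?_⟩
        have h1 : Nat.sqrt (am Q E D n * n) ≤ Nat.sqrt (am Q E D n * (n + s)) :=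
          Nat.sqrt_le_sqrt (Nat.mul_le_mul_left _ (by omega))
        have h2 : Nat.sqrt (am Q E D n * (n + s)) ≤ Nat.sqrt (am Q E D n * (n + k)) :=
          Nat.sqrt_le_sqrt (Nat.mul_le_mul_left _ (by omega))
        omega
      have hlt : Nat.sqrt (am Q E D n * n) < Nat.sqrt (am Q E D n * (n + k)) :=
        lt_of_le_of_ne (Nat.sqrt_le_sqrt (Nat.mul_le_mul_left _ (by omega))) (Ne.symm hne)
      rw [Finset.mem_biUnion]
      have hnI' := Finset.mem_Ioc.mp hnI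
      refine ⟨(am Q E D n, Nat.sqrt (am Q E D n * (n + k))), ?_, ?_⟩
      · rw [Finset.mem_product, Finset.mem_Icc, Finset.mem_range]
        refine ⟨⟨am_pos Q hQ E D n, am_le Q hQ E D n⟩, ?_⟩
        apply Nat.lt_succ_of_le
        apply Nat.sqrt_le_sqrt
        exact Nat.mul_le_mul (am_le Q hQ E D n) (by omega)
      · rw [Finset.mem_filter]
        refine ⟨hnI, ?_, Nat.sqrt_le _⟩
        exact Nat.sqrt_lt.mp hlt
  have h1 : (((Ioc 0 (y ^ 8)).filter fun n => ¬ Good σ Q E D k n).card : ℝ)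
      ≤ ∑ s ∈ Finset.range k, (((Ioc 0 (y ^ 8)).filter fun n => chg (n + s)).card : ℝ)
        + ∑ q ∈ Finset.Icc 1 A ×ˢ Finset.range (R + 1),
          (((Ioc 0 (y ^ 8)).filter
            (fun n => q.1 * n < q.2 * q.2 ∧ q.2 * q.2 ≤ q.1 * (n + k))).card : ℝ) := by
    have h2 := (Finset.card_le_card hsub).trans ((Finset.card_union_le _ _).trans
      (Nat.add_le_add Finset.card_biUnion_le Finset.card_biUnion_le))
    exact_mod_cast h2
  refine h1.trans ?_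
  have h3 : ∀ s ∈ Finset.range k, (((Ioc 0 (y ^ 8)).filter fun n => chg (n + s)).card : ℝ)
      ≤ |B| * ((k + 11 : ℕ) * (y : ℝ) ^ 4) := by
    intro s hs
    rw [Finset.mem_range] at hs
    have h4 : ((Ioc 0 (y ^ 8)).filter fun n => chg (n + s)).card
        ≤ ((Ico 1 (y ^ 8 + k + 1)).filter fun n => chg n).card := by
      apply Finset.card_le_card_of_injOn (fun n => n + s)
      · intro n hn
        rw [Finset.mem_coe, Finset.mem_filter, Finset.mem_Ioc] at hn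
        rw [Finset.mem_coe, Finset.mem_filter, Finset.mem_Ico]
        have hn1 := hn.1
        have e1 : (fun n => n + s) n = n + s := rfl
        rw [e1]
        exact ⟨⟨by omega, by omega⟩, hn.2⟩
      · intro a _ b _ hab
        have : a + s = b + s := hab
        omega
    have h5 := hlev (y ^ 8 + k + 1) (by omega)
    have h6 := log_pow8 k y hy
    have h7 : 0 ≤ Real.log ((y ^ 8 + k + 1 : ℕ) : ℝ) + 1 := by
      have : 0 ≤ Real.log ((y ^ 8 + k + 1 : ℕ) : ℝ) := Real.log_natCast_nonneg _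
      linarith
    calc (((Ioc 0 (y ^ 8)).filter fun n => chg (n + s)).card : ℝ)
        ≤ (((Ico 1 (y ^ 8 + k + 1)).filter fun n => chg n).card : ℝ) := by exact_mod_cast h4
      _ ≤ B * (Real.log ((y ^ 8 + k + 1 : ℕ) : ℝ) + 1) := h5
      _ ≤ |B| * (Real.log ((y ^ 8 + k + 1 : ℕ) : ℝ) + 1) :=
          mul_le_mul_of_nonneg_right (le_abs_self B) h7
      _ ≤ _ := mul_le_mul_of_nonneg_left h6 (abs_nonneg B)
  have h8 : ∀ q ∈ Finset.Icc 1 A ×ˢ Finset.range (R + 1),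
      (((Ioc 0 (y ^ 8)).filter
            (fun n => q.1 * n < q.2 * q.2 ∧ q.2 * q.2 ≤ q.1 * (n + k))).card : ℝ) ≤ (k + 1 : ℕ) := by
    intro q hq
    rw [Finset.mem_product, Finset.mem_Icc] at hq
    exact_mod_cast cross_card q.1 q.2 k hq.1.1 _
  have h9 : R ≤ A * (k + 1) * y ^ 4 := by
    rw [hR]
    have h10 : A * (y ^ 8 + k) ≤ (A * (k + 1) * y ^ 4) * (A * (k + 1) * y ^ 4) := by
      have e1 : (A * (k + 1) * y ^ 4) * (A * (k + 1) * y ^ 4) = A * A * ((k + 1) * (k + 1)) * y ^ 8 := by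
        ring
      have h11 : 1 ≤ y ^ 8 := Nat.one_le_pow _ _ hy
      have h12 : y ^ 8 + k ≤ (k + 1) * y ^ 8 := by nlinarith
      rw [e1]
      calc A * (y ^ 8 + k) ≤ A * ((k + 1) * y ^ 8) := Nat.mul_le_mul_left _ h12
        _ = (A * 1 * ((k + 1) * 1)) * y ^ 8 := by ring
        _ ≤ (A * A * ((k + 1) * (k + 1))) * y ^ 8 := by
            apply Nat.mul_le_mul_right
            exact Nat.mul_le_mul (Nat.mul_le_mul_left _ hA1) (Nat.mul_le_mul_left _ (by omega))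
    calc Nat.sqrt (A * (y ^ 8 + k)) ≤ Nat.sqrt ((A * (k + 1) * y ^ 4) * (A * (k + 1) * y ^ 4)) :=
          Nat.sqrt_le_sqrt h10
      _ = A * (k + 1) * y ^ 4 := Nat.sqrt_eq _
  have h10 := Finset.sum_le_sum h3
  have h11 := Finset.sum_le_sum h8
  rw [Finset.sum_const, Finset.card_range, nsmul_eq_mul] at h10
  rw [Finset.sum_const, Finset.card_product, Nat.card_Icc, Finset.card_range, nsmul_eq_mul] at h11
  have h12 : (((A + 1 - 1) * (R + 1) : ℕ) : ℝ) * (k + 1 : ℕ)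
      ≤ (2 * A ^ 2 * (k + 1) ^ 2 : ℕ) * (y : ℝ) ^ 4 := by
    have h13 : (A + 1 - 1) * (R + 1) * (k + 1) ≤ 2 * A ^ 2 * (k + 1) ^ 2 * y ^ 4 := by
      have h14 : 1 ≤ A * (k + 1) * y ^ 4 := by
        have : 1 ≤ y ^ 4 := Nat.one_le_pow _ _ hy
        exact Nat.mul_pos (Nat.mul_pos hA1 (by omega)) this
      calc (A + 1 - 1) * (R + 1) * (k + 1) ≤ A * (2 * (A * (k + 1) * y ^ 4)) * (k + 1) := by
            apply Nat.mul_le_mul_right
            apply Nat.mul_le_mul (by omega) (by omega)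
        _ = 2 * A ^ 2 * (k + 1) ^ 2 * y ^ 4 := by ring
    exact_mod_cast h13
  calc _ ≤ (k : ℝ) * (|B| * ((k + 11 : ℕ) * (y : ℝ) ^ 4))
        + (2 * A ^ 2 * (k + 1) ^ 2 : ℕ) * (y : ℝ) ^ 4 := add_le_add h10 (h11.trans h12)
    _ = _ := by ring

lemma prod_pm (S : Finset ℕ) (u : ℕ → ℝ) (hu : ∀ n, u n = 1 ∨ u n = -1) : |∏ s ∈ S, u s| = 1 := by
  rw [Finset.abs_prod]
  apply Finset.prod_eq_one
  intro j _
  rcases hu j with e | e <;> rw [e] <;> norm_num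

lemma C_abs {σ : ℕ → ℝ} {C : Finset ℕ → ℝ} (hC : DilationSystem σ C) (S : Finset ℕ) : |C S| ≤ 1 := by
  obtain ⟨P, hP0, hP1, hP⟩ := word σ C hC S
  rw [← hP S (Finset.Subset.refl S)]
  refine (Finset.abs_sum_le_sum_abs _ _).trans (le_trans (Finset.sum_le_sum fun R hR => ?_) hP1.le)
  rw [abs_mul, abs_of_nonneg (hP0 R hR)]
  have := prod_pm S (ws R) (ws_pm R)
  unfold ws at this
  rw [this, mul_one]

/-- the `j`-th superblock -/
def blk (j : ℕ) : Finset ℕ := Ico (j * j) ((j + 1) * (j + 1))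

lemma mem_blk (j m : ℕ) : m ∈ blk j ↔ Nat.sqrt m = j := by
  unfold blk
  rw [Finset.mem_Ico]
  constructor
  · rintro ⟨h1, h2⟩
    have h3 : j ≤ Nat.sqrt m := Nat.le_sqrt.mpr h1
    have h4 : Nat.sqrt m < j + 1 := Nat.sqrt_lt.mpr h2
    omega
  · rintro rfl
    exact ⟨Nat.sqrt_le m, Nat.sqrt_lt.mp (Nat.lt_succ_self _)⟩

/-- Few `m` have `a m` in the same superblock. -/
lemma block_card (Q : Finset ℕ) (hQ : ∀ p ∈ Q, p.Prime) (E : ℕ) (D : ℕ → ℝ) (y : ℕ) (hy : 1 ≤ y)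
    (n : ℕ) (hn : n ≤ y ^ 8) :
    ((Ioc 0 (y ^ 8)).filter fun m => Nat.sqrt (am Q E D m * m) = Nat.sqrt (am Q E D n * n)).card
      ≤ 3 * (∏ p ∈ Q, p ^ (E - 1)) ^ 2 * y ^ 4 := by
  classical
  set A : ℕ := ∏ p ∈ Q, p ^ (E - 1) with hA
  have hA1 : 1 ≤ A := Finset.prod_pos fun p hp => pow_pos (hQ p hp).pos _
  set j := Nat.sqrt (am Q E D n * n) with hj
  have hjA : j ≤ A * y ^ 4 := by
    have h10 : am Q E D n * n ≤ (A * y ^ 4) * (A * y ^ 4) := by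
      have e1 : (A * y ^ 4) * (A * y ^ 4) = A * A * y ^ 8 := by ring
      rw [e1]
      calc am Q E D n * n ≤ A * y ^ 8 := Nat.mul_le_mul (am_le Q hQ E D n) hn
        _ = A * 1 * y ^ 8 := by ring
        _ ≤ A * A * y ^ 8 := Nat.mul_le_mul_right _ (Nat.mul_le_mul_left _ hA1)
    calc j ≤ Nat.sqrt ((A * y ^ 4) * (A * y ^ 4)) := Nat.sqrt_le_sqrt h10
      _ = A * y ^ 4 := Nat.sqrt_eq _
  have hsub : (Ioc 0 (y ^ 8)).filter (fun m => Nat.sqrt (am Q E D m * m) = j) ⊆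
      (Finset.Icc 1 A).biUnion fun a => (Ioc 0 (y ^ 8)).filter fun m => a * m ∈ blk j := by
    intro m hm
    rw [Finset.mem_filter] at hm
    rw [Finset.mem_biUnion]
    refine ⟨am Q E D m, Finset.mem_Icc.mpr ⟨am_pos Q hQ E D m, am_le Q hQ E D m⟩, ?_⟩
    rw [Finset.mem_filter, mem_blk]
    exact hm
  have h1 : ∀ a ∈ Finset.Icc 1 A, ((Ioc 0 (y ^ 8)).filter fun m => a * m ∈ blk j).card
      ≤ 2 * j + 1 := by
    intro a ha
    rw [Finset.mem_Icc] at ha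
    have h2 : ((Ioc 0 (y ^ 8)).filter fun m => a * m ∈ blk j).card ≤ (blk j).card := by
      apply Finset.card_le_card_of_injOn (fun m => a * m)
      · intro m hm
        rw [Finset.mem_coe, Finset.mem_filter] at hm
        exact hm.2
      · intro u _ v _ huv
        exact Nat.eq_of_mul_eq_mul_left ha.1 huv
    refine h2.trans ?_
    unfold blk
    rw [Nat.card_Ico]
    have : (j + 1) * (j + 1) = j * j + (2 * j + 1) := by ring
    omega
  refine (Finset.card_le_card hsub).trans ((Finset.card_biUnion_le).trans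
    ((Finset.sum_le_sum h1).trans ?_))
  rw [Finset.sum_const, Nat.card_Icc, smul_eq_mul]
  have h3 : 1 ≤ A * y ^ 4 := Nat.mul_pos hA1 (Nat.one_le_pow _ _ hy)
  calc (A + 1 - 1) * (2 * j + 1) ≤ A * (3 * (A * y ^ 4)) :=
        Nat.mul_le_mul (by omega) (by omega)
    _ = 3 * A ^ 2 * y ^ 4 := by ring

lemma sum_Icc_inv_cube (a b : ℕ) (ha : 1 ≤ a) :
    ∑ y ∈ Icc a b, (1 : ℝ) / (y : ℝ) ^ 3 ≤ 2 / a := by
  have h0 : (0 : ℝ) < a := by exact_mod_cast ha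
  have h1 : ∀ y ∈ Icc a b, (1 : ℝ) / (y : ℝ) ^ 3 ≤ 1 / a * (1 / (y : ℝ) ^ 2) := by
    intro y hy
    rw [Finset.mem_Icc] at hy
    have hay : (a : ℝ) ≤ y := by exact_mod_cast hy.1
    have hy0 : (0 : ℝ) < y := by linarith
    rw [one_div_mul_one_div]
    apply one_div_le_one_div_of_le (by positivity)
    calc (a : ℝ) * (y : ℝ) ^ 2 ≤ y * (y : ℝ) ^ 2 := by gcongr
      _ = (y : ℝ) ^ 3 := by ring
  refine (Finset.sum_le_sum h1).trans ?_
  rw [← Finset.mul_sum]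
  have h2 : Icc a b = Ico a (b + 1) := by
    ext y; rw [Finset.mem_Icc, Finset.mem_Ico]; omega
  rw [h2]
  have h3 := inv_sq_sum a (b + 1) ha
  calc 1 / (a : ℝ) * ∑ y ∈ Ico a (b + 1), (1 : ℝ) / (y : ℝ) ^ 2 ≤ 1 / (a : ℝ) * 2 := by gcongr
    _ = 2 / a := by ring

open Classical in
/-- The function of a stage on the grid. -/
lemma stage_grid (σ : ℕ → ℝ) (hσ : ∀ p, σ p = 1 ∨ σ p = -1) (C : Finset ℕ → ℝ)
    (hC : DilationSystem σ C) (Q : Finset ℕ) (hQ : ∀ p ∈ Q, p.Prime)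
    (E : ℕ) (D : ℕ → ℝ) (W : ℕ → ℕ → ℝ) (k : ℕ) (Bw : ℝ) (hBw : 0 < Bw)
    (hW : ∀ j ≤ k, ∀ y n : ℕ, n ≤ y ^ 8 → |W j n| ^ 2 ≤ Bw * ((y : ℝ) + 1)) :
    ∃ K : ℝ, 0 < K ∧ ∀ Y0 : ℕ, 1 ≤ Y0 → ∀ Y1 : ℕ, ∃ X : ℕ → ℝ, (∀ n, X n = 1 ∨ X n = -1) ∧
      ∀ j ≤ k, ∀ S ⊆ range (k + 1), ∀ y : ℕ, Y0 ≤ y → y ≤ Y1 →
        |∑ n ∈ (Ioc 0 (y ^ 8)).filter (fun n => Good σ Q E D k n),
          W j n * (∏ s ∈ S, cs σ Q E D X (n + s) - C S)| ≤ K / Real.sqrt Y0 * (y : ℝ) ^ 8 := by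
  set A : ℕ := ∏ p ∈ Q, p ^ (E - 1) with hA
  have hA1 : 1 ≤ A := Finset.prod_pos fun p hp => pow_pos (hQ p hp).pos _
  have hA0 : (0 : ℝ) < A := by exact_mod_cast hA1
  set K0 : ℝ := ((k : ℝ) + 1) * 2 ^ (k + 1) * (48 * (A : ℝ) ^ 2 * Bw) with hK0
  have hK0pos : 0 < K0 := by positivity
  refine ⟨Real.sqrt K0, Real.sqrt_pos.mpr hK0pos, ?_⟩
  intro Y0 hY0 Y1
  choose P hP0 hP1 hP using fun j : ℕ => word σ C hC (blk j)
  set J' := Nat.sqrt (A * Y1 ^ 8) with hJ'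
  set Ω : Fin (J' + 1) → Finset (Finset ℕ) := fun j => (blk j).powerset with hΩ
  set R : Finset (ℕ × Finset ℕ × ℕ) :=
    range (k + 1) ×ˢ (range (k + 1)).powerset ×ˢ Icc Y0 Y1 with hR
  set 𝒩 : ℕ × Finset ℕ × ℕ → Finset ℕ := fun r =>
    (Ioc 0 (r.2.2 ^ 8)).filter (fun n => Good σ Q E D k n) with h𝒩
  set jn : ℕ × Finset ℕ × ℕ → ℕ → Fin (J' + 1) := fun _ n =>
    ⟨min (Nat.sqrt (am Q E D n * n)) J', by omega⟩ with hjn
  set ζ : ℕ × Finset ℕ × ℕ → ℕ → Finset ℕ → ℝ := fun r n ω =>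
    ∏ s ∈ r.2.1, (sg σ Q E D n * ws ω (am Q E D n * (n + s))) - C r.2.1 with hζdef
  have hmemR : ∀ r ∈ R, r.1 ≤ k ∧ r.2.1 ⊆ range (k + 1) ∧ Y0 ≤ r.2.2 ∧ r.2.2 ≤ Y1 := by
    intro r hr
    rw [hR, Finset.mem_product, Finset.mem_product, Finset.mem_range, Finset.mem_powerset,
      Finset.mem_Icc] at hr
    exact ⟨by omega, hr.2.1, hr.2.2.1, hr.2.2.2⟩
  have hmem𝒩 : ∀ r ∈ R, ∀ n ∈ 𝒩 r, 0 < n ∧ n ≤ r.2.2 ^ 8 ∧ Good σ Q E D k n ∧
      Nat.sqrt (am Q E D n * n) ≤ J' := by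
    intro r hr n hn
    rw [h𝒩, Finset.mem_filter, Finset.mem_Ioc] at hn
    refine ⟨hn.1.1, hn.1.2, hn.2, ?_⟩
    apply Nat.sqrt_le_sqrt
    apply Nat.mul_le_mul (am_le Q hQ E D n)
    exact hn.1.2.trans (Nat.pow_le_pow_left (hmemR r hr).2.2.2 8)
  have hjnval : ∀ r ∈ R, ∀ n ∈ 𝒩 r, ((jn r n : Fin (J' + 1)) : ℕ) = Nat.sqrt (am Q E D n * n) := by
    intro r hr n hn
    have := (hmem𝒩 r hr n hn).2.2.2
    simp only [hjn]
    omega
  have hζ : ∀ r ∈ R, ∀ n ∈ 𝒩 r, ∀ ω ∈ Ω (jn r n), |ζ r n ω| ≤ 2 := by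
    intro r _ n _ ω _
    simp only [hζdef]
    refine (abs_sub _ _).trans ?_
    have h1 := prod_pm r.2.1 (fun s => sg σ Q E D n * ws ω (am Q E D n * (n + s))) (fun s => by
      rcases sg_pm σ hσ Q E D n with a | a <;> rcases ws_pm ω (am Q E D n * (n + s)) with b | b <;>
        simp only [a, b] <;> norm_num)
    have h2 := C_abs hC r.2.1
    linarith
  have hmean : ∀ r ∈ R, ∀ n ∈ 𝒩 r,
      ∑ ω ∈ Ω (jn r n), P (jn r n) ω * ζ r n ω = 0 := by
    intro r hr n hn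
    apply mean_zero hσ hC Q hQ E D (blk (jn r n)) (P (jn r n)) (hP1 _) (hP _) r.2.1 n
    intro s hs
    rw [mem_blk, hjnval r hr n hn]
    have hsk := (hmemR r hr).2.1 hs
    rw [Finset.mem_range] at hsk
    exact ((hmem𝒩 r hr n hn).2.2.1 s (by omega)).2.2
  obtain ⟨ω, _, hω⟩ := exists_good Ω (fun j => P j) (fun j => hP0 j) (fun j => hP1 j) R 𝒩 jn ζ hζ
    hmean (fun r n => W r.1 n) (fun r => 1 / (r.2.2 : ℝ) ^ 16) (fun r _ => by positivity)
  -- the bound for the right-hand side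
  have hrhs : ∑ r ∈ R, (1 / (r.2.2 : ℝ) ^ 16) * (4 * ∑ n ∈ 𝒩 r,
      ∑ m ∈ (𝒩 r).filter (fun m => jn r m = jn r n), |W r.1 n| * |W r.1 m|) ≤ K0 / Y0 := by
    have hterm : ∀ r ∈ R, (1 / (r.2.2 : ℝ) ^ 16) * (4 * ∑ n ∈ 𝒩 r,
        ∑ m ∈ (𝒩 r).filter (fun m => jn r m = jn r n), |W r.1 n| * |W r.1 m|)
        ≤ 24 * (A : ℝ) ^ 2 * Bw * (1 / (r.2.2 : ℝ) ^ 3) := by
      intro r hr
      obtain ⟨hr1, hr2, hr3, hr4⟩ := hmemR r hr
      set y := r.2.2 with hy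
      have hy1 : 1 ≤ y := hY0.trans hr3
      have hyR : (1 : ℝ) ≤ y := by exact_mod_cast hy1
      have hy0 : (0 : ℝ) < y := by linarith
      have hin : ∀ n ∈ 𝒩 r, ∑ m ∈ (𝒩 r).filter (fun m => jn r m = jn r n), |W r.1 n| * |W r.1 m|
          ≤ (3 * (A : ℝ) ^ 2 * (y : ℝ) ^ 4) * (Bw * ((y : ℝ) + 1)) := by
        intro n hn
        have hcard : ((𝒩 r).filter (fun m => jn r m = jn r n)).card ≤ 3 * A ^ 2 * y ^ 4 := by
          refine le_trans (Finset.card_le_card ?_) (block_card Q hQ E D y hy1 n (hmem𝒩 r hr n hn).2.1)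
          intro m hm
          rw [Finset.mem_filter] at hm
          rw [Finset.mem_filter, Finset.mem_Ioc]
          have h1 := hmem𝒩 r hr m hm.1
          refine ⟨⟨h1.1, h1.2.1⟩, ?_⟩
          rw [← hjnval r hr m hm.1, ← hjnval r hr n hn, hm.2]
        have h2 : ∀ m ∈ (𝒩 r).filter (fun m => jn r m = jn r n),
            |W r.1 n| * |W r.1 m| ≤ Bw * ((y : ℝ) + 1) := by
          intro m hm
          rw [Finset.mem_filter] at hm
          have e1 := hW r.1 hr1 y n (hmem𝒩 r hr n hn).2.1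
          have e2 := hW r.1 hr1 y m (hmem𝒩 r hr m hm.1).2.1
          nlinarith [sq_nonneg (|W r.1 n| - |W r.1 m|)]
        refine (Finset.sum_le_sum h2).trans ?_
        rw [Finset.sum_const, nsmul_eq_mul]
        apply mul_le_mul_of_nonneg_right _ (by positivity)
        exact_mod_cast hcard
      have hsum := Finset.sum_le_sum hin
      rw [Finset.sum_const, nsmul_eq_mul] at hsum
      have hcard2 : ((𝒩 r).card : ℝ) ≤ (y : ℝ) ^ 8 := by
        have : (𝒩 r).card ≤ y ^ 8 := by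
          refine (Finset.card_filter_le _ _).trans ?_
          rw [Nat.card_Ioc, Nat.sub_zero]
        exact_mod_cast this
      have h3 : ∑ n ∈ 𝒩 r, ∑ m ∈ (𝒩 r).filter (fun m => jn r m = jn r n), |W r.1 n| * |W r.1 m|
          ≤ (y : ℝ) ^ 8 * ((3 * (A : ℝ) ^ 2 * (y : ℝ) ^ 4) * (Bw * (2 * y))) := by
        refine hsum.trans ?_
        have : (y : ℝ) + 1 ≤ 2 * y := by linarith
        gcongr
      calc (1 / (y : ℝ) ^ 16) * (4 * ∑ n ∈ 𝒩 r,
            ∑ m ∈ (𝒩 r).filter (fun m => jn r m = jn r n), |W r.1 n| * |W r.1 m|)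
          ≤ (1 / (y : ℝ) ^ 16) * (4 * ((y : ℝ) ^ 8 * ((3 * (A : ℝ) ^ 2 * (y : ℝ) ^ 4)
            * (Bw * (2 * y))))) := by gcongr
        _ = 24 * (A : ℝ) ^ 2 * Bw * (1 / (y : ℝ) ^ 3) := by
            field_simp
            ring
    refine (Finset.sum_le_sum hterm).trans ?_
    rw [← Finset.mul_sum, hR]
    simp only [Finset.sum_product, Finset.sum_const, Finset.card_range, Finset.card_powerset,
      nsmul_eq_mul]
    have h4 := sum_Icc_inv_cube Y0 Y1 hY0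
    have hY0' : (0 : ℝ) < Y0 := by exact_mod_cast hY0
    push_cast
    calc 24 * (A : ℝ) ^ 2 * Bw * (((k : ℝ) + 1) * (2 ^ (k + 1) * ∑ y ∈ Icc Y0 Y1, 1 / (y : ℝ) ^ 3))
        ≤ 24 * (A : ℝ) ^ 2 * Bw * (((k : ℝ) + 1) * (2 ^ (k + 1) * (2 / Y0))) := by gcongr
      _ = K0 / Y0 := by rw [hK0]; ring
  -- the function
  refine ⟨fun m => if h : Nat.sqrt m < J' + 1 then ws (ω ⟨Nat.sqrt m, h⟩) m else 1, ?_, ?_⟩
  · intro m
    by_cases h : Nat.sqrt m < J' + 1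
    · simp only [h, dif_pos]; exact ws_pm _ _
    · left; simp only [h, dif_neg, not_false_eq_true]
  · intro j hj S hS y hy1 hy2
    have hy1' : 1 ≤ y := hY0.trans hy1
    have hy0 : (0 : ℝ) < y := by exact_mod_cast hy1'
    set r : ℕ × Finset ℕ × ℕ := (j, S, y) with hr
    have hrR : r ∈ R := by
      rw [hR, Finset.mem_product, Finset.mem_product, Finset.mem_range, Finset.mem_powerset,
        Finset.mem_Icc]
      exact ⟨by simp only [hr]; omega, hS, hy1, hy2⟩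
    have hsumeq : ∑ n ∈ (Ioc 0 (y ^ 8)).filter (fun n => Good σ Q E D k n),
          W j n * (∏ s ∈ S, cs σ Q E D (fun m => if h : Nat.sqrt m < J' + 1 then
            ws (ω ⟨Nat.sqrt m, h⟩) m else 1) (n + s) - C S)
        = ∑ n ∈ 𝒩 r, W r.1 n * ζ r n (ω (jn r n)) := by
      refine Finset.sum_congr rfl fun n hn => ?_
      have hn' : n ∈ 𝒩 r := hn
      obtain ⟨hn1, hn2, hn3, hn4⟩ := hmem𝒩 r hrR n hn'
      congr 1
      simp only [hζdef]
      congr 1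
      refine Finset.prod_congr rfl fun s hs => ?_
      have hsk := hS hs
      rw [Finset.mem_range] at hsk
      obtain ⟨g1, g2, g3⟩ := hn3 s (by omega)
      unfold cs
      rw [g1, g2]
      have h5 : Nat.sqrt (am Q E D n * (n + s)) < J' + 1 := by rw [g3]; omega
      simp only [h5, dif_pos]
      congr 2
      congr 1
      apply Fin.ext
      exact g3.trans (hjnval r hrR n hn').symm
    rw [hsumeq]
    have h6 : (1 / (y : ℝ) ^ 16) * (∑ n ∈ 𝒩 r, W r.1 n * ζ r n (ω (jn r n))) ^ 2 ≤ K0 / Y0 := by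
      refine le_trans ?_ (hω.trans hrhs)
      exact Finset.single_le_sum (f := fun r : ℕ × Finset ℕ × ℕ => (1 / (r.2.2 : ℝ) ^ 16) *
        (∑ n ∈ 𝒩 r, W r.1 n * ζ r n (ω (jn r n))) ^ 2) (fun _ _ => by positivity) hrR
    have hY0' : (0 : ℝ) < Y0 := by exact_mod_cast hY0
    have h7 : (∑ n ∈ 𝒩 r, W r.1 n * ζ r n (ω (jn r n))) ^ 2
        ≤ (Real.sqrt K0 / Real.sqrt Y0 * (y : ℝ) ^ 8) ^ 2 := by
      have e1 : (Real.sqrt K0 / Real.sqrt Y0 * (y : ℝ) ^ 8) ^ 2 = K0 / Y0 * (y : ℝ) ^ 16 := by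
        rw [mul_pow, div_pow, Real.sq_sqrt hK0pos.le, Real.sq_sqrt hY0'.le]
        ring
      rw [e1]
      have h8 := mul_le_mul_of_nonneg_right h6 (show (0 : ℝ) ≤ (y : ℝ) ^ 16 by positivity)
      have e2 : (1 / (y : ℝ) ^ 16) * (∑ n ∈ 𝒩 r, W r.1 n * ζ r n (ω (jn r n))) ^ 2 * (y : ℝ) ^ 16
          = (∑ n ∈ 𝒩 r, W r.1 n * ζ r n (ω (jn r n))) ^ 2 := by
        field_simp
      rw [e2] at h8
      exact h8
    exact abs_le_of_sq_le_sq h7 (by positivity)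

/-- R2: the function of a stage -/
theorem stage (σ : ℕ → ℝ) (hσ : ∀ p, σ p = 1 ∨ σ p = -1) (C : Finset ℕ → ℝ)
    (hC : DilationSystem σ C) (Q : Finset ℕ) (hQ : ∀ p ∈ Q, p.Prime)
    (E : ℕ) (D : ℕ → ℝ) (B : ℝ)
    (hlev : ∀ N : ℕ, 1 ≤ N →
        (((Ico 1 N).filter fun n => ¬ (am Q E D (n + 1) = am Q E D n ∧
          sg σ Q E D (n + 1) = sg σ Q E D n)).card : ℝ) ≤ B * (Real.log N + 1))
    (W : ℕ → ℕ → ℝ) (hW : ∀ j, Grow (W j)) (k : ℕ) :
    ∃ K : ℝ, 0 < K ∧ ∃ y0 : ℕ, ∀ Y0 : ℕ, y0 ≤ Y0 → ∀ Y1 : ℕ, ∃ X : ℕ → ℝ,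
      (∀ n, X n = 1 ∨ X n = -1) ∧ ∀ j ≤ k, ∀ S ⊆ range (k + 1), ∀ x : ℕ, Y0 ^ 8 ≤ x → x ≤ Y1 ^ 8 →
        |∑ n ∈ Ioc 0 x, W j n * (∏ s ∈ S, cs σ Q E D X (n + s) - C S)| ≤ K / Real.sqrt Y0 * x := by
  classical
  choose Bj hBj0 hBj using fun j => grow_pow8 (hW j)
  set Bw : ℝ := ∑ j ∈ range (k + 1), Bj j with hBw
  have hBw0 : 0 < Bw := Finset.sum_pos (fun j _ => hBj0 j) ⟨0, by simp⟩
  have hWb : ∀ j ≤ k, ∀ y n : ℕ, n ≤ y ^ 8 → |W j n| ^ 2 ≤ Bw * ((y : ℝ) + 1) := by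
    intro j hj y n hn
    refine (hBj j y n hn).trans ?_
    apply mul_le_mul_of_nonneg_right _ (by positivity)
    exact Finset.single_le_sum (f := Bj) (fun i _ => (hBj0 i).le) (Finset.mem_range.mpr (by omega))
  obtain ⟨K1, hK1, hgrid⟩ := stage_grid σ hσ C hC Q hQ E D W k Bw hBw0 hWb
  obtain ⟨K2, hK2, hbad⟩ := bad_count σ Q hQ E D B hlev k
  refine ⟨K1 + 2 * Real.sqrt (2 * Bw) * K2 + 510 * Real.sqrt (3 * Bw), by positivity, 1, ?_⟩
  intro Y0 hY0 Y1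
  obtain ⟨X, hX, hXg⟩ := hgrid Y0 hY0 Y1
  refine ⟨X, hX, ?_⟩
  intro j hj S hS x hx0 hx1
  set y := Nat.findGreatest (fun m => m ^ 8 ≤ x) x with hy
  have hselfpow : ∀ m : ℕ, m ≤ m ^ 8 := fun m => by
    rcases Nat.eq_zero_or_pos m with h | h
    · simp [h]
    · calc m = m ^ 1 := (pow_one m).symm
        _ ≤ m ^ 8 := Nat.pow_le_pow_right h (by norm_num)
  have hy1 : y ^ 8 ≤ x := Nat.findGreatest_spec (P := fun m => m ^ 8 ≤ x) (Nat.zero_le x) (by simp)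
  have hay : Y0 ≤ y := Nat.le_findGreatest ((hselfpow Y0).trans hx0) hx0
  have hy2 : x < (y + 1) ^ 8 := by
    by_contra hcon
    push Not at hcon
    have h1 : y + 1 ≤ y := Nat.le_findGreatest ((hselfpow (y + 1)).trans hcon) hcon
    omega
  have hyb : y ≤ Y1 := by
    by_contra hcon
    push Not at hcon
    have := Nat.pow_lt_pow_left hcon (show (8 : ℕ) ≠ 0 by norm_num)
    omega
  have hy1' : 1 ≤ y := hY0.trans hay
  have hyR : (1 : ℝ) ≤ y := by exact_mod_cast hy1'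
  have hy0 : (0 : ℝ) < y := by linarith
  have hY0R : (1 : ℝ) ≤ Y0 := by exact_mod_cast hY0
  have hy8 : (y : ℝ) ^ 8 ≤ x := by exact_mod_cast hy1
  have hsy : Real.sqrt y * Real.sqrt y = y := Real.mul_self_sqrt hy0.le
  have hsy0 : 0 < Real.sqrt y := Real.sqrt_pos.mpr hy0
  have hsa : 0 < Real.sqrt Y0 := Real.sqrt_pos.mpr (by linarith)
  have hsay : Real.sqrt Y0 ≤ Real.sqrt y := Real.sqrt_le_sqrt (by exact_mod_cast hay)
  -- bound of a term
  have hcs : ∀ n, |∏ s ∈ S, cs σ Q E D X (n + s) - C S| ≤ 2 := by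
    intro n
    refine (abs_sub _ _).trans ?_
    have h1 := prod_pm S (fun s => cs σ Q E D X (n + s)) (fun s => by
      simp only [cs]
      rcases sg_pm σ hσ Q E D (n + s) with a | a <;>
        rcases hX (am Q E D (n + s) * (n + s)) with b | b <;>
        rw [a, b] <;> norm_num)
    have h2 := C_abs hC S
    linarith
  have hterm : ∀ (c : ℝ) (z n : ℕ), 0 ≤ c → n ≤ z ^ 8 → Bw * ((z : ℝ) + 1) ≤ c * Bw * y →
      |W j n * (∏ s ∈ S, cs σ Q E D X (n + s) - C S)| ≤ 2 * (Real.sqrt (c * Bw) * Real.sqrt y) := by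
    intro c z n hc hn hcz
    rw [abs_mul, mul_comm]
    apply mul_le_mul (hcs n) _ (abs_nonneg _) (by norm_num)
    rw [← Real.sqrt_mul (by positivity)]
    exact Real.le_sqrt_of_sq_le ((hWb j hj z n hn).trans hcz)
  -- good part
  have hgood := hXg j hj S hS y hay hyb
  -- bad part
  have hbadsum : |∑ n ∈ (Ioc 0 (y ^ 8)).filter (fun n => ¬ Good σ Q E D k n),
      W j n * (∏ s ∈ S, cs σ Q E D X (n + s) - C S)|
      ≤ 2 * Real.sqrt (2 * Bw) * K2 / Real.sqrt Y0 * (y : ℝ) ^ 8 := by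
    have h1 : ∀ n ∈ (Ioc 0 (y ^ 8)).filter (fun n => ¬ Good σ Q E D k n),
        |W j n * (∏ s ∈ S, cs σ Q E D X (n + s) - C S)|
          ≤ 2 * (Real.sqrt (2 * Bw) * Real.sqrt y) := by
      intro n hn
      rw [Finset.mem_filter, Finset.mem_Ioc] at hn
      exact hterm 2 y n (by norm_num) hn.1.2 (by nlinarith)
    refine (Finset.abs_sum_le_sum_abs _ _).trans ((Finset.sum_le_sum h1).trans ?_)
    rw [Finset.sum_const, nsmul_eq_mul]
    have h2 := hbad y hy1'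
    rw [div_mul_eq_mul_div, le_div_iff₀ hsa]
    have h3 : (y : ℝ) ^ 5 ≤ (y : ℝ) ^ 8 := pow_le_pow_right₀ hyR (by norm_num)
    calc (((Ioc 0 (y ^ 8)).filter fun n => ¬ Good σ Q E D k n).card : ℝ)
          * (2 * (Real.sqrt (2 * Bw) * Real.sqrt y)) * Real.sqrt Y0
        ≤ (K2 * (y : ℝ) ^ 4) * (2 * (Real.sqrt (2 * Bw) * Real.sqrt y)) * Real.sqrt y := by gcongr
      _ = 2 * Real.sqrt (2 * Bw) * K2 * ((Real.sqrt y * Real.sqrt y) * (y : ℝ) ^ 4) := by ring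
      _ = 2 * Real.sqrt (2 * Bw) * K2 * (y : ℝ) ^ 5 := by rw [hsy]; ring
      _ ≤ 2 * Real.sqrt (2 * Bw) * K2 * (y : ℝ) ^ 8 := by gcongr
  -- rest
  have hrest : |∑ n ∈ Ioc (y ^ 8) x, W j n * (∏ s ∈ S, cs σ Q E D X (n + s) - C S)|
      ≤ 510 * Real.sqrt (3 * Bw) / Real.sqrt Y0 * (y : ℝ) ^ 8 := by
    have h5 : ∀ n ∈ Ioc (y ^ 8) x, |W j n * (∏ s ∈ S, cs σ Q E D X (n + s) - C S)|
        ≤ 2 * (Real.sqrt (3 * Bw) * Real.sqrt y) := by
      intro n hn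
      rw [Finset.mem_Ioc] at hn
      refine hterm 3 (y + 1) n (by norm_num) (by omega) ?_
      push_cast
      nlinarith
    refine (Finset.abs_sum_le_sum_abs _ _).trans ((Finset.sum_le_sum h5).trans ?_)
    rw [Finset.sum_const, Nat.card_Ioc, nsmul_eq_mul]
    have h7 : ((x - y ^ 8 : ℕ) : ℝ) ≤ 255 * (y : ℝ) ^ 7 := by
      rw [Nat.cast_sub hy1]
      have h8 : (x : ℝ) ≤ ((y : ℝ) + 1) ^ 8 := by exact_mod_cast hy2.le
      have e : ((y : ℝ) + 1) ^ 8 = (y : ℝ) ^ 8 + 8 * y ^ 7 + 28 * y ^ 6 + 56 * y ^ 5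
        + 70 * y ^ 4 + 56 * y ^ 3 + 28 * y ^ 2 + 8 * y ^ 1 + 1 * y ^ 0 := by ring
      have q : ∀ r, r ≤ 7 → (y : ℝ) ^ r ≤ (y : ℝ) ^ 7 := fun r hr => pow_le_pow_right₀ hyR hr
      have q0 := q 0 (by norm_num)
      have q1 := q 1 (by norm_num)
      have q2 := q 2 (by norm_num)
      have q3 := q 3 (by norm_num)
      have q4 := q 4 (by norm_num)
      have q5 := q 5 (by norm_num)
      have q6 := q 6 (by norm_num)
      push_cast
      linarith
    rw [div_mul_eq_mul_div, le_div_iff₀ hsa]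
    calc ((x - y ^ 8 : ℕ) : ℝ) * (2 * (Real.sqrt (3 * Bw) * Real.sqrt y)) * Real.sqrt Y0
        ≤ (255 * (y : ℝ) ^ 7) * (2 * (Real.sqrt (3 * Bw) * Real.sqrt y)) * Real.sqrt y := by gcongr
      _ = 510 * Real.sqrt (3 * Bw) * ((Real.sqrt y * Real.sqrt y) * (y : ℝ) ^ 7) := by ring
      _ = 510 * Real.sqrt (3 * Bw) * (y : ℝ) ^ 8 := by rw [hsy]; ring
  have hsplit : ∑ n ∈ Ioc 0 x, W j n * (∏ s ∈ S, cs σ Q E D X (n + s) - C S)
      = (∑ n ∈ (Ioc 0 (y ^ 8)).filter (fun n => Good σ Q E D k n),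
          W j n * (∏ s ∈ S, cs σ Q E D X (n + s) - C S))
        + (∑ n ∈ (Ioc 0 (y ^ 8)).filter (fun n => ¬ Good σ Q E D k n),
          W j n * (∏ s ∈ S, cs σ Q E D X (n + s) - C S))
        + ∑ n ∈ Ioc (y ^ 8) x, W j n * (∏ s ∈ S, cs σ Q E D X (n + s) - C S) := by
    rw [Finset.sum_filter_add_sum_filter_not]
    exact (Finset.sum_Ioc_consecutive _ (Nat.zero_le _) hy1).symm
  rw [hsplit]
  refine (abs_add_le _ _).trans ?_
  have h1 := abs_add_le (∑ n ∈ (Ioc 0 (y ^ 8)).filter (fun n => Good σ Q E D k n),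
          W j n * (∏ s ∈ S, cs σ Q E D X (n + s) - C S))
        (∑ n ∈ (Ioc 0 (y ^ 8)).filter (fun n => ¬ Good σ Q E D k n),
          W j n * (∏ s ∈ S, cs σ Q E D X (n + s) - C S))
  have h2 : (K1 + 2 * Real.sqrt (2 * Bw) * K2 + 510 * Real.sqrt (3 * Bw)) / Real.sqrt Y0 * (y : ℝ) ^ 8
      ≤ (K1 + 2 * Real.sqrt (2 * Bw) * K2 + 510 * Real.sqrt (3 * Bw)) / Real.sqrt Y0 * x :=
    mul_le_mul_of_nonneg_left hy8 (by positivity)
  have h3 : (K1 + 2 * Real.sqrt (2 * Bw) * K2 + 510 * Real.sqrt (3 * Bw)) / Real.sqrt Y0 * (y : ℝ) ^ 8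
      = K1 / Real.sqrt Y0 * (y : ℝ) ^ 8 + 2 * Real.sqrt (2 * Bw) * K2 / Real.sqrt Y0 * (y : ℝ) ^ 8
        + 510 * Real.sqrt (3 * Bw) / Real.sqrt Y0 * (y : ℝ) ^ 8 := by ring
  linarith

end Pool.Agent.Helper8.Classify
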