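import Mathlib
import Pool.Agent.Helper8.Classify.Joint
import Pool.Agent.Helper8.Classify.Stage

/-!
# The function of a stage, joint systems
-/

namespace Pool.Agent.Helper8.Classify

open Finset Filter Topology Pool.Agent.Helper8.Dilation Pool.Agent.Helper8.Order
  Pool.Agent.Helper8.Transfer

/-- random words with given correlations -/
theorem word_gen (C : Finset ℕ → ℝ) (h0 : C ∅ = 1)
    (hpos : ∀ (T : Finset ℕ) (v : ℕ → ℝ), (∀ n, v n = 1 ∨ v n = -1) →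
      0 ≤ ∑ S ∈ T.powerset, C S * ∏ s ∈ S, v s) (T : Finset ℕ) :
    ∃ P : Finset ℕ → ℝ, (∀ R ∈ T.powerset, 0 ≤ P R) ∧ ∑ R ∈ T.powerset, P R = 1 ∧
      ∀ S ⊆ T, ∑ R ∈ T.powerset, P R * ∏ s ∈ S, (if s ∈ R then (-1 : ℝ) else 1) = C S := by
  classical
  have h2 : (0 : ℝ) < 2 ^ T.card := by positivity
  let P : Finset ℕ → ℝ := fun R =>
    (2 ^ T.card)⁻¹ * ∑ S ∈ T.powerset, C S * ∏ s ∈ S, (if s ∈ R then (-1 : ℝ) else 1)
  have key : ∀ S ⊆ T, ∑ R ∈ T.powerset, P R * ∏ s ∈ S, (if s ∈ R then (-1 : ℝ) else 1) = C S := by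
    intro S hS
    have : ∀ R ∈ T.powerset, P R * ∏ s ∈ S, (if s ∈ R then (-1 : ℝ) else 1) =
        (2 ^ T.card)⁻¹ * ∑ S' ∈ T.powerset, C S' * ((∏ s ∈ S', (if s ∈ R then (-1 : ℝ) else 1)) *
          ∏ s ∈ S, (if s ∈ R then (-1 : ℝ) else 1)) := by
      intro R _
      simp only [P]
      rw [mul_assoc, Finset.sum_mul]
      congr 1
      refine Finset.sum_congr rfl fun S' _ => by ring
    rw [Finset.sum_congr rfl this, ← Finset.mul_sum, Finset.sum_comm]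
    have h3 : ∀ S' ∈ T.powerset, ∑ R ∈ T.powerset,
        C S' * ((∏ s ∈ S', (if s ∈ R then (-1 : ℝ) else 1)) *
          ∏ s ∈ S, (if s ∈ R then (-1 : ℝ) else 1)) = if S' = S then C S * 2 ^ T.card else 0 := by
      intro S' hS'
      rw [← Finset.mul_sum, word_orth T S' S (Finset.mem_powerset.1 hS') hS]
      split_ifs with h
      · rw [h]
      · simp
    rw [Finset.sum_congr rfl h3, Finset.sum_ite_eq' T.powerset S,
      if_pos (Finset.mem_powerset.2 hS)]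
    field_simp
  refine ⟨P, ?_, ?_, key⟩
  · intro R _
    refine mul_nonneg (by positivity) ?_
    refine hpos T (fun s => if s ∈ R then (-1 : ℝ) else 1) fun n => ?_
    by_cases h : n ∈ R <;> simp [h]
  · have := key ∅ (Finset.empty_subset T)
    simpa [h0] using this

lemma word_abs (C : Finset ℕ → ℝ) (h0 : C ∅ = 1)
    (hpos : ∀ (T : Finset ℕ) (v : ℕ → ℝ), (∀ n, v n = 1 ∨ v n = -1) →
      0 ≤ ∑ S ∈ T.powerset, C S * ∏ s ∈ S, v s) (S : Finset ℕ) : |C S| ≤ 1 := by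
  obtain ⟨P, hP0, hP1, hP⟩ := word_gen C h0 hpos S
  rw [← hP S (Finset.Subset.refl S)]
  refine (Finset.abs_sum_le_sum_abs _ _).trans (le_trans (Finset.sum_le_sum fun R hR => ?_) hP1.le)
  rw [abs_mul, abs_of_nonneg (hP0 R hR)]
  have := prod_pm S (ws R) (ws_pm R)
  unfold ws at this
  rw [this, mul_one]

lemma JointSystem.norm_empty {σ : ℕ → ℝ} {c : ℕ → ℕ → Finset ℕ → ℝ} (hc : JointSystem σ c)
    (q r : ℕ) (hq : 1 ≤ q) : (fun S => (q : ℝ) * c q r S) ∅ = 1 := by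
  have hq0 : (q : ℝ) ≠ 0 := by
    have : q ≠ 0 := by omega
    exact_mod_cast this
  simp only [hc.empty q r hq]
  field_simp

lemma JointSystem.norm_pos {σ : ℕ → ℝ} {c : ℕ → ℕ → Finset ℕ → ℝ} (hc : JointSystem σ c)
    (q r : ℕ) (hq : 1 ≤ q) (T : Finset ℕ) (v : ℕ → ℝ) (hv : ∀ n, v n = 1 ∨ v n = -1) :
    0 ≤ ∑ S ∈ T.powerset, (fun S => (q : ℝ) * c q r S) S * ∏ s ∈ S, v s := by
  have h := hc.pos q r hq T v hv
  have e : ∑ S ∈ T.powerset, (fun S => (q : ℝ) * c q r S) S * ∏ s ∈ S, v s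
      = q * ∑ S ∈ T.powerset, c q r S * ∏ s ∈ S, v s := by
    rw [Finset.mul_sum]
    exact Finset.sum_congr rfl fun S _ => by ring
  rw [e]
  positivity

lemma JointSystem.abs_le {σ : ℕ → ℝ} {c : ℕ → ℕ → Finset ℕ → ℝ} (hc : JointSystem σ c)
    (q r : ℕ) (hq : 1 ≤ q) (S : Finset ℕ) : |(q : ℝ) * c q r S| ≤ 1 :=
  word_abs (fun S => (q : ℝ) * c q r S) (hc.norm_empty q r hq) (hc.norm_pos q r hq) S

lemma c_shift {σ : ℕ → ℝ} {c : ℕ → ℕ → Finset ℕ → ℝ} (hc : JointSystem σ c) (q r : ℕ) (hq : 1 ≤ q)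
    (S : Finset ℕ) (m : ℕ) : c q r (S.image (fun s => m + s)) = c q (r + m) S := by
  induction m generalizing r with
  | zero => simp
  | succ m ih =>
    have h1 : S.image (fun s => m + 1 + s) = (S.image (fun s => m + s)).image (fun s => s + 1) := by
      rw [Finset.image_image]
      refine Finset.image_congr fun s _ => ?_
      simp only [Function.comp]
      ring
    rw [h1, hc.shift q r _ hq, ih (r + 1)]
    congr 1
    ring

lemma c_pow {σ : ℕ → ℝ} {c : ℕ → ℕ → Finset ℕ → ℝ} (hc : JointSystem σ c) (p : ℕ) (hp : p.Prime)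
    (e : ℕ) (q r : ℕ) (hq : 1 ≤ q) (S : Finset ℕ) :
    c (p ^ e * q) (p ^ e * r) (S.image (fun s => p ^ e * s))
      = (σ p ^ e) ^ S.card * c q r S / (p ^ e : ℕ) := by
  induction e with
  | zero => simp
  | succ e ih =>
    have h1 : S.image (fun s => p ^ (e + 1) * s)
        = (S.image (fun s => p ^ e * s)).image (fun s => p * s) := by
      rw [Finset.image_image]
      refine Finset.image_congr fun s _ => ?_
      simp only [Function.comp]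
      ring
    have h2 : p ^ (e + 1) * q = p * (p ^ e * q) := by ring
    have h3 : p ^ (e + 1) * r = p * (p ^ e * r) := by ring
    have hp0 : (p : ℝ) ≠ 0 := by exact_mod_cast hp.ne_zero
    have hq' : 1 ≤ p ^ e * q := Nat.mul_pos (pow_pos hp.pos e) hq
    rw [h1, h2, h3, hc.dilate p hp _ _ _ hq', ih, Finset.card_image_of_injective]
    · push_cast
      field_simp
      ring
    · intro a b hab
      exact Nat.eq_of_mul_eq_mul_left (pow_pos hp.pos e) hab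

lemma c_prod {σ : ℕ → ℝ} {c : ℕ → ℕ → Finset ℕ → ℝ} (hc : JointSystem σ c) (Q : Finset ℕ)
    (hQ : ∀ p ∈ Q, p.Prime) (e : ℕ → ℕ) (q r : ℕ) (hq : 1 ≤ q) (S : Finset ℕ) :
    c ((∏ p ∈ Q, p ^ e p) * q) ((∏ p ∈ Q, p ^ e p) * r) (S.image (fun s => (∏ p ∈ Q, p ^ e p) * s))
      = (∏ p ∈ Q, σ p ^ e p) ^ S.card * c q r S / (∏ p ∈ Q, p ^ e p : ℕ) := by
  classical
  induction Q using Finset.induction_on with
  | empty => simp
  | insert b s hb ih =>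
    have hb' : b.Prime := hQ b (Finset.mem_insert_self _ _)
    have hs : ∀ p ∈ s, p.Prime := fun p hp => hQ p (Finset.mem_insert_of_mem hp)
    have hb0 : (b : ℝ) ≠ 0 := by exact_mod_cast hb'.ne_zero
    have hpos : 0 < ∏ p ∈ s, p ^ e p := Finset.prod_pos fun p hp => pow_pos (hs p hp).pos _
    have h1 : S.image (fun x => (∏ p ∈ insert b s, p ^ e p) * x)
        = (S.image (fun x => (∏ p ∈ s, p ^ e p) * x)).image (fun x => b ^ e b * x) := by
      rw [Finset.image_image]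
      refine Finset.image_congr fun x _ => ?_
      simp only [Function.comp]
      rw [Finset.prod_insert hb]
      ring
    have h2 : (∏ p ∈ insert b s, p ^ e p) * q = b ^ e b * ((∏ p ∈ s, p ^ e p) * q) := by
      rw [Finset.prod_insert hb]; ring
    have h3 : (∏ p ∈ insert b s, p ^ e p) * r = b ^ e b * ((∏ p ∈ s, p ^ e p) * r) := by
      rw [Finset.prod_insert hb]; ring
    rw [h1, h2, h3, c_pow hc b hb' _ _ _ (Nat.mul_pos hpos hq), ih hs,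
      Finset.card_image_of_injective, Finset.prod_insert hb, Finset.prod_insert hb]
    · push_cast
      have : (∏ p ∈ s, (p : ℝ) ^ e p) ≠ 0 := by
        have : ((∏ p ∈ s, p ^ e p : ℕ) : ℝ) ≠ 0 := by exact_mod_cast hpos.ne'
        push_cast at this
        exact this
      field_simp
      ring
    · intro x y hxy
      exact Nat.eq_of_mul_eq_mul_left hpos hxy

lemma am_dvd (Q : Finset ℕ) (E : ℕ) (D : ℕ → ℝ) (n : ℕ) : am Q E D n ∣ ∏ p ∈ Q, p ^ (E - 1) := by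
  unfold am
  exact Finset.prod_dvd_prod_of_dvd _ _ fun p _ => pow_dvd_pow p (by omega)

lemma am_mul_md (Q : Finset ℕ) (E : ℕ) (D : ℕ → ℝ) (M : ℕ) (hAM : ∏ p ∈ Q, p ^ (E - 1) ∣ M) (n : ℕ) :
    am Q E D n * md Q E D M n = M :=
  Nat.mul_div_cancel' ((am_dvd Q E D n).trans hAM)

lemma md_pos (Q : Finset ℕ) (E : ℕ) (D : ℕ → ℝ) (M : ℕ) (hM : 1 ≤ M)
    (hAM : ∏ p ∈ Q, p ^ (E - 1) ∣ M) (n : ℕ) : 1 ≤ md Q E D M n := by
  have h := am_mul_md Q E D M hAM n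
  by_contra hcon
  have h0 : md Q E D M n = 0 := by omega
  rw [h0, mul_zero] at h
  omega

lemma kap_abs {σ : ℕ → ℝ} {c : ℕ → ℕ → Finset ℕ → ℝ} (hc : JointSystem σ c) (Q : Finset ℕ) (E : ℕ)
    (D : ℕ → ℝ) (M : ℕ) (hM : 1 ≤ M) (hAM : ∏ p ∈ Q, p ^ (E - 1) ∣ M) (S : Finset ℕ) (n : ℕ) :
    |kap c Q E D M S n| ≤ 1 :=
  hc.abs_le _ _ (md_pos Q E D M hM hAM n) S

lemma mean_zero_j {σ : ℕ → ℝ} (hσ : ∀ p, σ p = 1 ∨ σ p = -1) {c : ℕ → ℕ → Finset ℕ → ℝ}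
    (hc : JointSystem σ c) (Q : Finset ℕ) (hQ : ∀ p ∈ Q, p.Prime) (E : ℕ) (D : ℕ → ℝ)
    (M : ℕ) (hM : 1 ≤ M) (hAM : ∏ p ∈ Q, p ^ (E - 1) ∣ M)
    (T : Finset ℕ) (P : Finset ℕ → ℝ) (hP1 : ∑ R ∈ T.powerset, P R = 1)
    (hP : ∀ S ⊆ T, ∑ R ∈ T.powerset, P R * ∏ s ∈ S, (if s ∈ R then (-1 : ℝ) else 1) = M * c M 0 S)
    (S : Finset ℕ) (n : ℕ) (hS : ∀ s ∈ S, am Q E D n * (n + s) ∈ T) :
    ∑ R ∈ T.powerset, P R * (∏ s ∈ S, (sg σ Q E D n * ws R (am Q E D n * (n + s)))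
      - kap c Q E D M S n) = 0 := by
  classical
  have ham := am_pos Q hQ E D n
  have ham0 : (am Q E D n : ℝ) ≠ 0 := by
    have : am Q E D n ≠ 0 := by omega
    exact_mod_cast this
  have hinj : Function.Injective (fun s => am Q E D n * (n + s)) := by
    intro a b hab
    have := Nat.eq_of_mul_eq_mul_left ham hab
    omega
  have h1 : (M : ℝ) * c M 0 (S.image (fun s => am Q E D n * (n + s)))
      = sg σ Q E D n ^ S.card * kap c Q E D M S n := by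
    have h2 : S.image (fun s => am Q E D n * (n + s))
        = (S.image (fun s => n + s)).image (fun s => am Q E D n * s) := by
      rw [Finset.image_image]
      rfl
    have h3 := am_mul_md Q E D M hAM n
    have h4 := c_prod hc Q hQ (fun p => E - 1 - lev E D p n) (md Q E D M n) 0
      (md_pos Q E D M hM hAM n) (S.image (fun s => n + s))
    have e1 : (∏ p ∈ Q, p ^ (E - 1 - lev E D p n)) = am Q E D n := rfl
    have e2 : (∏ p ∈ Q, σ p ^ (E - 1 - lev E D p n)) = sg σ Q E D n := rfl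
    simp only [e1, e2] at h4
    rw [h3, mul_zero, c_shift hc _ _ (md_pos Q E D M hM hAM n), zero_add,
      Finset.card_image_of_injective _ (fun a b hab => by
        have : n + a = n + b := hab
        omega)] at h4
    rw [h2, h4]
    unfold kap
    have h5 : (M : ℝ) = am Q E D n * md Q E D M n := by exact_mod_cast h3.symm
    rw [h5]
    field_simp
  have h3 := hP (S.image (fun s => am Q E D n * (n + s))) (by
    intro t ht
    rw [Finset.mem_image] at ht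
    obtain ⟨s, hs, rfl⟩ := ht
    exact hS s hs)
  have h4 : ∀ R : Finset ℕ, ∏ s ∈ S.image (fun s => am Q E D n * (n + s)),
      (if s ∈ R then (-1 : ℝ) else 1) = ∏ s ∈ S, ws R (am Q E D n * (n + s)) := by
    intro R
    rw [Finset.prod_image (fun a _ b _ hab => hinj hab)]
    rfl
  have h5 : sg σ Q E D n ^ S.card * sg σ Q E D n ^ S.card = 1 := by
    rw [← mul_pow]
    rcases sg_pm σ hσ Q E D n with h | h <;> rw [h] <;> norm_num
  calc ∑ R ∈ T.powerset, P R * (∏ s ∈ S, (sg σ Q E D n * ws R (am Q E D n * (n + s)))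
        - kap c Q E D M S n)
      = sg σ Q E D n ^ S.card * (∑ R ∈ T.powerset, P R * ∏ s ∈ S, ws R (am Q E D n * (n + s)))
        - (∑ R ∈ T.powerset, P R) * kap c Q E D M S n := by
        rw [Finset.mul_sum, Finset.sum_mul, ← Finset.sum_sub_distrib]
        refine Finset.sum_congr rfl fun R _ => ?_
        rw [Finset.prod_mul_distrib, Finset.prod_const]
        ring
    _ = sg σ Q E D n ^ S.card * (sg σ Q E D n ^ S.card * kap c Q E D M S n)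
        - 1 * kap c Q E D M S n := by
        rw [hP1, ← h1, ← h3]
        congr 2
        refine Finset.sum_congr rfl fun R _ => ?_
        rw [h4]
    _ = 0 := by rw [← mul_assoc, h5]; ring

open Classical in
/-- The function of a stage on the grid. -/
lemma stage_grid_j (σ : ℕ → ℝ) (hσ : ∀ p, σ p = 1 ∨ σ p = -1) (c : ℕ → ℕ → Finset ℕ → ℝ)
    (hc : JointSystem σ c) (Q : Finset ℕ) (hQ : ∀ p ∈ Q, p.Prime)
    (E : ℕ) (D : ℕ → ℝ) (M : ℕ) (hM : 1 ≤ M) (hAM : ∏ p ∈ Q, p ^ (E - 1) ∣ M)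
    (W : ℕ → ℕ → ℝ) (k : ℕ) (Bw : ℝ) (hBw : 0 < Bw)
    (hW : ∀ j ≤ k, ∀ y n : ℕ, n ≤ y ^ 8 → |W j n| ^ 2 ≤ Bw * ((y : ℝ) + 1)) :
    ∃ K : ℝ, 0 < K ∧ ∀ Y0 : ℕ, 1 ≤ Y0 → ∀ Y1 : ℕ, ∃ X : ℕ → ℝ, (∀ n, X n = 1 ∨ X n = -1) ∧
      ∀ j ≤ k, ∀ S ⊆ range (k + 1), ∀ y : ℕ, Y0 ≤ y → y ≤ Y1 →
        |∑ n ∈ (Ioc 0 (y ^ 8)).filter (fun n => Good σ Q E D k n),
          W j n * (∏ s ∈ S, cs σ Q E D X (n + s) - kap c Q E D M S n)| ≤ K / Real.sqrt Y0 * (y : ℝ) ^ 8 := by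
  set A : ℕ := ∏ p ∈ Q, p ^ (E - 1) with hA
  have hA1 : 1 ≤ A := Finset.prod_pos fun p hp => pow_pos (hQ p hp).pos _
  have hA0 : (0 : ℝ) < A := by exact_mod_cast hA1
  set K0 : ℝ := ((k : ℝ) + 1) * 2 ^ (k + 1) * (48 * (A : ℝ) ^ 2 * Bw) with hK0
  have hK0pos : 0 < K0 := by positivity
  refine ⟨Real.sqrt K0, Real.sqrt_pos.mpr hK0pos, ?_⟩
  intro Y0 hY0 Y1
  choose P hP0 hP1 hP using fun j : ℕ => word_gen (fun S => (M : ℝ) * c M 0 S)
    (hc.norm_empty M 0 hM) (hc.norm_pos M 0 hM) (blk j)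
  set J' := Nat.sqrt (A * Y1 ^ 8) with hJ'
  set Ω : Fin (J' + 1) → Finset (Finset ℕ) := fun j => (blk j).powerset with hΩ
  set R : Finset (ℕ × Finset ℕ × ℕ) :=
    range (k + 1) ×ˢ (range (k + 1)).powerset ×ˢ Icc Y0 Y1 with hR
  set 𝒩 : ℕ × Finset ℕ × ℕ → Finset ℕ := fun r =>
    (Ioc 0 (r.2.2 ^ 8)).filter (fun n => Good σ Q E D k n) with h𝒩
  set jn : ℕ × Finset ℕ × ℕ → ℕ → Fin (J' + 1) := fun _ n =>
    ⟨min (Nat.sqrt (am Q E D n * n)) J', by omega⟩ with hjn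
  set ζ : ℕ × Finset ℕ × ℕ → ℕ → Finset ℕ → ℝ := fun r n ω =>
    ∏ s ∈ r.2.1, (sg σ Q E D n * ws ω (am Q E D n * (n + s))) - kap c Q E D M r.2.1 n with hζdef
  have hmemR : ∀ r ∈ R, r.1 ≤ k ∧ r.2.1 ⊆ range (k + 1) ∧ Y0 ≤ r.2.2 ∧ r.2.2 ≤ Y1 := by
    intro r hr
    rw [hR, Finset.mem_product, Finset.mem_product, Finset.mem_range, Finset.mem_powerset,
      Finset.mem_Icc] at hr
    exact ⟨by omega, hr.2.1, hr.2.2.1, hr.2.2.2⟩
  have hmem𝒩 : ∀ r ∈ R, ∀ n ∈ 𝒩 r, 0 < n ∧ n ≤ r.2.2 ^ 8 ∧ Good σ Q E D k n ∧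
      Nat.sqrt (am Q E D n * n) ≤ J' := by
    intro r hr n hn
    rw [h𝒩, Finset.mem_filter, Finset.mem_Ioc] at hn
    refine ⟨hn.1.1, hn.1.2, hn.2, ?_⟩
    apply Nat.sqrt_le_sqrt
    apply Nat.mul_le_mul (am_le Q hQ E D n)
    exact hn.1.2.trans (Nat.pow_le_pow_left (hmemR r hr).2.2.2 8)
  have hjnval : ∀ r ∈ R, ∀ n ∈ 𝒩 r, ((jn r n : Fin (J' + 1)) : ℕ) = Nat.sqrt (am Q E D n * n) := by
    intro r hr n hn
    have := (hmem𝒩 r hr n hn).2.2.2
    simp only [hjn]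
    omega
  have hζ : ∀ r ∈ R, ∀ n ∈ 𝒩 r, ∀ ω ∈ Ω (jn r n), |ζ r n ω| ≤ 2 := by
    intro r _ n _ ω _
    simp only [hζdef]
    refine (abs_sub _ _).trans ?_
    have h1 := prod_pm r.2.1 (fun s => sg σ Q E D n * ws ω (am Q E D n * (n + s))) (fun s => by
      rcases sg_pm σ hσ Q E D n with a | a <;> rcases ws_pm ω (am Q E D n * (n + s)) with b | b <;>
        simp only [a, b] <;> norm_num)
    have h2 := kap_abs hc Q E D M hM hAM r.2.1 n
    linarith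
  have hmean : ∀ r ∈ R, ∀ n ∈ 𝒩 r,
      ∑ ω ∈ Ω (jn r n), P (jn r n) ω * ζ r n ω = 0 := by
    intro r hr n hn
    apply mean_zero_j hσ hc Q hQ E D M hM hAM (blk (jn r n)) (P (jn r n)) (hP1 _) (hP _) r.2.1 n
    intro s hs
    rw [mem_blk, hjnval r hr n hn]
    have hsk := (hmemR r hr).2.1 hs
    rw [Finset.mem_range] at hsk
    exact ((hmem𝒩 r hr n hn).2.2.1 s (by omega)).2.2
  obtain ⟨ω, _, hω⟩ := exists_good Ω (fun j => P j) (fun j => hP0 j) (fun j => hP1 j) R 𝒩 jn ζ hζ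
    hmean (fun r n => W r.1 n) (fun r => 1 / (r.2.2 : ℝ) ^ 16) (fun r _ => by positivity)
  -- the bound for the right-hand side
  have hrhs : ∑ r ∈ R, (1 / (r.2.2 : ℝ) ^ 16) * (4 * ∑ n ∈ 𝒩 r,
      ∑ m ∈ (𝒩 r).filter (fun m => jn r m = jn r n), |W r.1 n| * |W r.1 m|) ≤ K0 / Y0 := by
    have hterm : ∀ r ∈ R, (1 / (r.2.2 : ℝ) ^ 16) * (4 * ∑ n ∈ 𝒩 r,
        ∑ m ∈ (𝒩 r).filter (fun m => jn r m = jn r n), |W r.1 n| * |W r.1 m|)
        ≤ 24 * (A : ℝ) ^ 2 * Bw * (1 / (r.2.2 : ℝ) ^ 3) := by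
      intro r hr
      obtain ⟨hr1, hr2, hr3, hr4⟩ := hmemR r hr
      set y := r.2.2 with hy
      have hy1 : 1 ≤ y := hY0.trans hr3
      have hyR : (1 : ℝ) ≤ y := by exact_mod_cast hy1
      have hy0 : (0 : ℝ) < y := by linarith
      have hin : ∀ n ∈ 𝒩 r, ∑ m ∈ (𝒩 r).filter (fun m => jn r m = jn r n), |W r.1 n| * |W r.1 m|
          ≤ (3 * (A : ℝ) ^ 2 * (y : ℝ) ^ 4) * (Bw * ((y : ℝ) + 1)) := by
        intro n hn
        have hcard : ((𝒩 r).filter (fun m => jn r m = jn r n)).card ≤ 3 * A ^ 2 * y ^ 4 := by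
          refine le_trans (Finset.card_le_card ?_) (block_card Q hQ E D y hy1 n (hmem𝒩 r hr n hn).2.1)
          intro m hm
          rw [Finset.mem_filter] at hm
          rw [Finset.mem_filter, Finset.mem_Ioc]
          have h1 := hmem𝒩 r hr m hm.1
          refine ⟨⟨h1.1, h1.2.1⟩, ?_⟩
          rw [← hjnval r hr m hm.1, ← hjnval r hr n hn, hm.2]
        have h2 : ∀ m ∈ (𝒩 r).filter (fun m => jn r m = jn r n),
            |W r.1 n| * |W r.1 m| ≤ Bw * ((y : ℝ) + 1) := by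
          intro m hm
          rw [Finset.mem_filter] at hm
          have e1 := hW r.1 hr1 y n (hmem𝒩 r hr n hn).2.1
          have e2 := hW r.1 hr1 y m (hmem𝒩 r hr m hm.1).2.1
          nlinarith [sq_nonneg (|W r.1 n| - |W r.1 m|)]
        refine (Finset.sum_le_sum h2).trans ?_
        rw [Finset.sum_const, nsmul_eq_mul]
        apply mul_le_mul_of_nonneg_right _ (by positivity)
        exact_mod_cast hcard
      have hsum := Finset.sum_le_sum hin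
      rw [Finset.sum_const, nsmul_eq_mul] at hsum
      have hcard2 : ((𝒩 r).card : ℝ) ≤ (y : ℝ) ^ 8 := by
        have : (𝒩 r).card ≤ y ^ 8 := by
          refine (Finset.card_filter_le _ _).trans ?_
          rw [Nat.card_Ioc, Nat.sub_zero]
        exact_mod_cast this
      have h3 : ∑ n ∈ 𝒩 r, ∑ m ∈ (𝒩 r).filter (fun m => jn r m = jn r n), |W r.1 n| * |W r.1 m|
          ≤ (y : ℝ) ^ 8 * ((3 * (A : ℝ) ^ 2 * (y : ℝ) ^ 4) * (Bw * (2 * y))) := by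
        refine hsum.trans ?_
        have : (y : ℝ) + 1 ≤ 2 * y := by linarith
        gcongr
      calc (1 / (y : ℝ) ^ 16) * (4 * ∑ n ∈ 𝒩 r,
            ∑ m ∈ (𝒩 r).filter (fun m => jn r m = jn r n), |W r.1 n| * |W r.1 m|)
          ≤ (1 / (y : ℝ) ^ 16) * (4 * ((y : ℝ) ^ 8 * ((3 * (A : ℝ) ^ 2 * (y : ℝ) ^ 4)
            * (Bw * (2 * y))))) := by gcongr
        _ = 24 * (A : ℝ) ^ 2 * Bw * (1 / (y : ℝ) ^ 3) := by
            field_simp
            ring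
    refine (Finset.sum_le_sum hterm).trans ?_
    rw [← Finset.mul_sum, hR]
    simp only [Finset.sum_product, Finset.sum_const, Finset.card_range, Finset.card_powerset,
      nsmul_eq_mul]
    have h4 := sum_Icc_inv_cube Y0 Y1 hY0
    have hY0' : (0 : ℝ) < Y0 := by exact_mod_cast hY0
    push_cast
    calc 24 * (A : ℝ) ^ 2 * Bw * (((k : ℝ) + 1) * (2 ^ (k + 1) * ∑ y ∈ Icc Y0 Y1, 1 / (y : ℝ) ^ 3))
        ≤ 24 * (A : ℝ) ^ 2 * Bw * (((k : ℝ) + 1) * (2 ^ (k + 1) * (2 / Y0))) := by gcongr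
      _ = K0 / Y0 := by rw [hK0]; ring
  -- the function
  refine ⟨fun m => if h : Nat.sqrt m < J' + 1 then ws (ω ⟨Nat.sqrt m, h⟩) m else 1, ?_, ?_⟩
  · intro m
    by_cases h : Nat.sqrt m < J' + 1
    · simp only [h, dif_pos]; exact ws_pm _ _
    · left; simp only [h, dif_neg, not_false_eq_true]
  · intro j hj S hS y hy1 hy2
    have hy1' : 1 ≤ y := hY0.trans hy1
    have hy0 : (0 : ℝ) < y := by exact_mod_cast hy1'
    set r : ℕ × Finset ℕ × ℕ := (j, S, y) with hr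
    have hrR : r ∈ R := by
      rw [hR, Finset.mem_product, Finset.mem_product, Finset.mem_range, Finset.mem_powerset,
        Finset.mem_Icc]
      exact ⟨by simp only [hr]; omega, hS, hy1, hy2⟩
    have hsumeq : ∑ n ∈ (Ioc 0 (y ^ 8)).filter (fun n => Good σ Q E D k n),
          W j n * (∏ s ∈ S, cs σ Q E D (fun m => if h : Nat.sqrt m < J' + 1 then
            ws (ω ⟨Nat.sqrt m, h⟩) m else 1) (n + s) - kap c Q E D M S n)
        = ∑ n ∈ 𝒩 r, W r.1 n * ζ r n (ω (jn r n)) := by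
      refine Finset.sum_congr rfl fun n hn => ?_
      have hn' : n ∈ 𝒩 r := hn
      obtain ⟨hn1, hn2, hn3, hn4⟩ := hmem𝒩 r hrR n hn'
      congr 1
      simp only [hζdef]
      congr 1
      refine Finset.prod_congr rfl fun s hs => ?_
      have hsk := hS hs
      rw [Finset.mem_range] at hsk
      obtain ⟨g1, g2, g3⟩ := hn3 s (by omega)
      unfold cs
      rw [g1, g2]
      have h5 : Nat.sqrt (am Q E D n * (n + s)) < J' + 1 := by rw [g3]; omega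
      simp only [h5, dif_pos]
      congr 2
      congr 1
      apply Fin.ext
      exact g3.trans (hjnval r hrR n hn').symm
    rw [hsumeq]
    have h6 : (1 / (y : ℝ) ^ 16) * (∑ n ∈ 𝒩 r, W r.1 n * ζ r n (ω (jn r n))) ^ 2 ≤ K0 / Y0 := by
      refine le_trans ?_ (hω.trans hrhs)
      exact Finset.single_le_sum (f := fun r : ℕ × Finset ℕ × ℕ => (1 / (r.2.2 : ℝ) ^ 16) *
        (∑ n ∈ 𝒩 r, W r.1 n * ζ r n (ω (jn r n))) ^ 2) (fun _ _ => by positivity) hrR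
    have hY0' : (0 : ℝ) < Y0 := by exact_mod_cast hY0
    have h7 : (∑ n ∈ 𝒩 r, W r.1 n * ζ r n (ω (jn r n))) ^ 2
        ≤ (Real.sqrt K0 / Real.sqrt Y0 * (y : ℝ) ^ 8) ^ 2 := by
      have e1 : (Real.sqrt K0 / Real.sqrt Y0 * (y : ℝ) ^ 8) ^ 2 = K0 / Y0 * (y : ℝ) ^ 16 := by
        rw [mul_pow, div_pow, Real.sq_sqrt hK0pos.le, Real.sq_sqrt hY0'.le]
        ring
      rw [e1]
      have h8 := mul_le_mul_of_nonneg_right h6 (show (0 : ℝ) ≤ (y : ℝ) ^ 16 by positivity)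
      have e2 : (1 / (y : ℝ) ^ 16) * (∑ n ∈ 𝒩 r, W r.1 n * ζ r n (ω (jn r n))) ^ 2 * (y : ℝ) ^ 16
          = (∑ n ∈ 𝒩 r, W r.1 n * ζ r n (ω (jn r n))) ^ 2 := by
        field_simp
      rw [e2] at h8
      exact h8
    exact abs_le_of_sq_le_sq h7 (by positivity)

/-- R2: the function of a stage -/
theorem stage_j (σ : ℕ → ℝ) (hσ : ∀ p, σ p = 1 ∨ σ p = -1) (c : ℕ → ℕ → Finset ℕ → ℝ)
    (hc : JointSystem σ c) (Q : Finset ℕ) (hQ : ∀ p ∈ Q, p.Prime)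
    (E : ℕ) (D : ℕ → ℝ) (M : ℕ) (hM : 1 ≤ M) (hAM : ∏ p ∈ Q, p ^ (E - 1) ∣ M) (B : ℝ)
    (hlev : ∀ N : ℕ, 1 ≤ N →
        (((Ico 1 N).filter fun n => ¬ (am Q E D (n + 1) = am Q E D n ∧
          sg σ Q E D (n + 1) = sg σ Q E D n)).card : ℝ) ≤ B * (Real.log N + 1))
    (W : ℕ → ℕ → ℝ) (hW : ∀ j, Grow (W j)) (k : ℕ) :
    ∃ K : ℝ, 0 < K ∧ ∃ y0 : ℕ, ∀ Y0 : ℕ, y0 ≤ Y0 → ∀ Y1 : ℕ, ∃ X : ℕ → ℝ,
      (∀ n, X n = 1 ∨ X n = -1) ∧ ∀ j ≤ k, ∀ S ⊆ range (k + 1), ∀ x : ℕ, Y0 ^ 8 ≤ x → x ≤ Y1 ^ 8 →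
        |∑ n ∈ Ioc 0 x, W j n * (∏ s ∈ S, cs σ Q E D X (n + s) - kap c Q E D M S n)| ≤ K / Real.sqrt Y0 * x := by
  classical
  choose Bj hBj0 hBj using fun j => grow_pow8 (hW j)
  set Bw : ℝ := ∑ j ∈ range (k + 1), Bj j with hBw
  have hBw0 : 0 < Bw := Finset.sum_pos (fun j _ => hBj0 j) ⟨0, by simp⟩
  have hWb : ∀ j ≤ k, ∀ y n : ℕ, n ≤ y ^ 8 → |W j n| ^ 2 ≤ Bw * ((y : ℝ) + 1) := by
    intro j hj y n hn
    refine (hBj j y n hn).trans ?_
    apply mul_le_mul_of_nonneg_right _ (by positivity)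
    exact Finset.single_le_sum (f := Bj) (fun i _ => (hBj0 i).le) (Finset.mem_range.mpr (by omega))
  obtain ⟨K1, hK1, hgrid⟩ := stage_grid_j σ hσ c hc Q hQ E D M hM hAM W k Bw hBw0 hWb
  obtain ⟨K2, hK2, hbad⟩ := bad_count σ Q hQ E D B hlev k
  refine ⟨K1 + 2 * Real.sqrt (2 * Bw) * K2 + 510 * Real.sqrt (3 * Bw), by positivity, 1, ?_⟩
  intro Y0 hY0 Y1
  obtain ⟨X, hX, hXg⟩ := hgrid Y0 hY0 Y1
  refine ⟨X, hX, ?_⟩
  intro j hj S hS x hx0 hx1
  set y := Nat.findGreatest (fun m => m ^ 8 ≤ x) x with hy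
  have hselfpow : ∀ m : ℕ, m ≤ m ^ 8 := fun m => by
    rcases Nat.eq_zero_or_pos m with h | h
    · simp [h]
    · calc m = m ^ 1 := (pow_one m).symm
        _ ≤ m ^ 8 := Nat.pow_le_pow_right h (by norm_num)
  have hy1 : y ^ 8 ≤ x := Nat.findGreatest_spec (P := fun m => m ^ 8 ≤ x) (Nat.zero_le x) (by simp)
  have hay : Y0 ≤ y := Nat.le_findGreatest ((hselfpow Y0).trans hx0) hx0
  have hy2 : x < (y + 1) ^ 8 := by
    by_contra hcon
    push Not at hcon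
    have h1 : y + 1 ≤ y := Nat.le_findGreatest ((hselfpow (y + 1)).trans hcon) hcon
    omega
  have hyb : y ≤ Y1 := by
    by_contra hcon
    push Not at hcon
    have := Nat.pow_lt_pow_left hcon (show (8 : ℕ) ≠ 0 by norm_num)
    omega
  have hy1' : 1 ≤ y := hY0.trans hay
  have hyR : (1 : ℝ) ≤ y := by exact_mod_cast hy1'
  have hy0 : (0 : ℝ) < y := by linarith
  have hY0R : (1 : ℝ) ≤ Y0 := by exact_mod_cast hY0
  have hy8 : (y : ℝ) ^ 8 ≤ x := by exact_mod_cast hy1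
  have hsy : Real.sqrt y * Real.sqrt y = y := Real.mul_self_sqrt hy0.le
  have hsy0 : 0 < Real.sqrt y := Real.sqrt_pos.mpr hy0
  have hsa : 0 < Real.sqrt Y0 := Real.sqrt_pos.mpr (by linarith)
  have hsay : Real.sqrt Y0 ≤ Real.sqrt y := Real.sqrt_le_sqrt (by exact_mod_cast hay)
  -- bound of a term
  have hcs : ∀ n, |∏ s ∈ S, cs σ Q E D X (n + s) - kap c Q E D M S n| ≤ 2 := by
    intro n
    refine (abs_sub _ _).trans ?_
    have h1 := prod_pm S (fun s => cs σ Q E D X (n + s)) (fun s => by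
      simp only [cs]
      rcases sg_pm σ hσ Q E D (n + s) with a | a <;>
        rcases hX (am Q E D (n + s) * (n + s)) with b | b <;>
        rw [a, b] <;> norm_num)
    have h2 := kap_abs hc Q E D M hM hAM S n
    linarith
  have hterm : ∀ (c0 : ℝ) (z n : ℕ), 0 ≤ c0 → n ≤ z ^ 8 → Bw * ((z : ℝ) + 1) ≤ c0 * Bw * y →
      |W j n * (∏ s ∈ S, cs σ Q E D X (n + s) - kap c Q E D M S n)| ≤ 2 * (Real.sqrt (c0 * Bw) * Real.sqrt y) := by
    intro c0 z n hc0 hn hcz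
    rw [abs_mul, mul_comm]
    apply mul_le_mul (hcs n) _ (abs_nonneg _) (by norm_num)
    rw [← Real.sqrt_mul (by positivity)]
    exact Real.le_sqrt_of_sq_le ((hWb j hj z n hn).trans hcz)
  -- good part
  have hgood := hXg j hj S hS y hay hyb
  -- bad part
  have hbadsum : |∑ n ∈ (Ioc 0 (y ^ 8)).filter (fun n => ¬ Good σ Q E D k n),
      W j n * (∏ s ∈ S, cs σ Q E D X (n + s) - kap c Q E D M S n)|
      ≤ 2 * Real.sqrt (2 * Bw) * K2 / Real.sqrt Y0 * (y : ℝ) ^ 8 := by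
    have h1 : ∀ n ∈ (Ioc 0 (y ^ 8)).filter (fun n => ¬ Good σ Q E D k n),
        |W j n * (∏ s ∈ S, cs σ Q E D X (n + s) - kap c Q E D M S n)|
          ≤ 2 * (Real.sqrt (2 * Bw) * Real.sqrt y) := by
      intro n hn
      rw [Finset.mem_filter, Finset.mem_Ioc] at hn
      exact hterm 2 y n (by norm_num) hn.1.2 (by nlinarith)
    refine (Finset.abs_sum_le_sum_abs _ _).trans ((Finset.sum_le_sum h1).trans ?_)
    rw [Finset.sum_const, nsmul_eq_mul]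
    have h2 := hbad y hy1'
    rw [div_mul_eq_mul_div, le_div_iff₀ hsa]
    have h3 : (y : ℝ) ^ 5 ≤ (y : ℝ) ^ 8 := pow_le_pow_right₀ hyR (by norm_num)
    calc (((Ioc 0 (y ^ 8)).filter fun n => ¬ Good σ Q E D k n).card : ℝ)
          * (2 * (Real.sqrt (2 * Bw) * Real.sqrt y)) * Real.sqrt Y0
        ≤ (K2 * (y : ℝ) ^ 4) * (2 * (Real.sqrt (2 * Bw) * Real.sqrt y)) * Real.sqrt y := by gcongr
      _ = 2 * Real.sqrt (2 * Bw) * K2 * ((Real.sqrt y * Real.sqrt y) * (y : ℝ) ^ 4) := by ring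
      _ = 2 * Real.sqrt (2 * Bw) * K2 * (y : ℝ) ^ 5 := by rw [hsy]; ring
      _ ≤ 2 * Real.sqrt (2 * Bw) * K2 * (y : ℝ) ^ 8 := by gcongr
  -- rest
  have hrest : |∑ n ∈ Ioc (y ^ 8) x, W j n * (∏ s ∈ S, cs σ Q E D X (n + s) - kap c Q E D M S n)|
      ≤ 510 * Real.sqrt (3 * Bw) / Real.sqrt Y0 * (y : ℝ) ^ 8 := by
    have h5 : ∀ n ∈ Ioc (y ^ 8) x, |W j n * (∏ s ∈ S, cs σ Q E D X (n + s) - kap c Q E D M S n)|
        ≤ 2 * (Real.sqrt (3 * Bw) * Real.sqrt y) := by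
      intro n hn
      rw [Finset.mem_Ioc] at hn
      refine hterm 3 (y + 1) n (by norm_num) (by omega) ?_
      push_cast
      nlinarith
    refine (Finset.abs_sum_le_sum_abs _ _).trans ((Finset.sum_le_sum h5).trans ?_)
    rw [Finset.sum_const, Nat.card_Ioc, nsmul_eq_mul]
    have h7 : ((x - y ^ 8 : ℕ) : ℝ) ≤ 255 * (y : ℝ) ^ 7 := by
      rw [Nat.cast_sub hy1]
      have h8 : (x : ℝ) ≤ ((y : ℝ) + 1) ^ 8 := by exact_mod_cast hy2.le
      have e : ((y : ℝ) + 1) ^ 8 = (y : ℝ) ^ 8 + 8 * y ^ 7 + 28 * y ^ 6 + 56 * y ^ 5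
        + 70 * y ^ 4 + 56 * y ^ 3 + 28 * y ^ 2 + 8 * y ^ 1 + 1 * y ^ 0 := by ring
      have q : ∀ r, r ≤ 7 → (y : ℝ) ^ r ≤ (y : ℝ) ^ 7 := fun r hr => pow_le_pow_right₀ hyR hr
      have q0 := q 0 (by norm_num)
      have q1 := q 1 (by norm_num)
      have q2 := q 2 (by norm_num)
      have q3 := q 3 (by norm_num)
      have q4 := q 4 (by norm_num)
      have q5 := q 5 (by norm_num)
      have q6 := q 6 (by norm_num)
      push_cast
      linarith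
    rw [div_mul_eq_mul_div, le_div_iff₀ hsa]
    calc ((x - y ^ 8 : ℕ) : ℝ) * (2 * (Real.sqrt (3 * Bw) * Real.sqrt y)) * Real.sqrt Y0
        ≤ (255 * (y : ℝ) ^ 7) * (2 * (Real.sqrt (3 * Bw) * Real.sqrt y)) * Real.sqrt y := by gcongr
      _ = 510 * Real.sqrt (3 * Bw) * ((Real.sqrt y * Real.sqrt y) * (y : ℝ) ^ 7) := by ring
      _ = 510 * Real.sqrt (3 * Bw) * (y : ℝ) ^ 8 := by rw [hsy]; ring
  have hsplit : ∑ n ∈ Ioc 0 x, W j n * (∏ s ∈ S, cs σ Q E D X (n + s) - kap c Q E D M S n)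
      = (∑ n ∈ (Ioc 0 (y ^ 8)).filter (fun n => Good σ Q E D k n),
          W j n * (∏ s ∈ S, cs σ Q E D X (n + s) - kap c Q E D M S n))
        + (∑ n ∈ (Ioc 0 (y ^ 8)).filter (fun n => ¬ Good σ Q E D k n),
          W j n * (∏ s ∈ S, cs σ Q E D X (n + s) - kap c Q E D M S n))
        + ∑ n ∈ Ioc (y ^ 8) x, W j n * (∏ s ∈ S, cs σ Q E D X (n + s) - kap c Q E D M S n) := by
    rw [Finset.sum_filter_add_sum_filter_not]
    exact (Finset.sum_Ioc_consecutive _ (Nat.zero_le _) hy1).symm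
  rw [hsplit]
  refine (abs_add_le _ _).trans ?_
  have h1 := abs_add_le (∑ n ∈ (Ioc 0 (y ^ 8)).filter (fun n => Good σ Q E D k n),
          W j n * (∏ s ∈ S, cs σ Q E D X (n + s) - kap c Q E D M S n))
        (∑ n ∈ (Ioc 0 (y ^ 8)).filter (fun n => ¬ Good σ Q E D k n),
          W j n * (∏ s ∈ S, cs σ Q E D X (n + s) - kap c Q E D M S n))
  have h2 : (K1 + 2 * Real.sqrt (2 * Bw) * K2 + 510 * Real.sqrt (3 * Bw)) / Real.sqrt Y0 * (y : ℝ) ^ 8
      ≤ (K1 + 2 * Real.sqrt (2 * Bw) * K2 + 510 * Real.sqrt (3 * Bw)) / Real.sqrt Y0 * x :=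
    mul_le_mul_of_nonneg_left hy8 (by positivity)
  have h3 : (K1 + 2 * Real.sqrt (2 * Bw) * K2 + 510 * Real.sqrt (3 * Bw)) / Real.sqrt Y0 * (y : ℝ) ^ 8
      = K1 / Real.sqrt Y0 * (y : ℝ) ^ 8 + 2 * Real.sqrt (2 * Bw) * K2 / Real.sqrt Y0 * (y : ℝ) ^ 8
        + 510 * Real.sqrt (3 * Bw) / Real.sqrt Y0 * (y : ℝ) ^ 8 := by ring
  linarith

end Pool.Agent.Helper8.Classify
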