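import Mathlib
import Pool.Agent.Helper8.Classify.JStage
import Pool.Agent.Helper8.Classify.GlGen
import Pool.Agent.Helper71.Classify.GlDilate
import Pool.Agent.Helper5.Classify.Level
import Pool.Agent.Helper26.Classify.Kron
import Pool.Agent.Helper58.Classify.KapAvg

/-!
# Realisation of joint correlation systems
-/

namespace Pool.Agent.Helper8.Classify

open Finset Filter Topology Pool.Agent.Helper8.Dilation Pool.Agent.Helper8.Order
  Pool.Agent.Helper8.Transfer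

lemma cs_dilate (σ : ℕ → ℝ) (Q : Finset ℕ) (E : ℕ) (D : ℕ → ℝ) (X : ℕ → ℝ) (p n : ℕ)
    (h1 : am Q E D (p * n) * p = am Q E D n) (h2 : sg σ Q E D (p * n) = σ p * sg σ Q E D n) :
    cs σ Q E D X (p * n) = σ p * cs σ Q E D X n := by
  unfold cs
  rw [h2, ← mul_assoc (am Q E D (p * n)), h1]
  ring

lemma cs_pm (σ : ℕ → ℝ) (hσ : ∀ p, σ p = 1 ∨ σ p = -1) (Q : Finset ℕ) (E : ℕ) (D : ℕ → ℝ)
    (X : ℕ → ℝ) (hX : ∀ n, X n = 1 ∨ X n = -1) (n : ℕ) :
    cs σ Q E D X n = 1 ∨ cs σ Q E D X n = -1 := by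
  unfold cs
  rcases sg_pm σ hσ Q E D n with a | a <;> rcases hX (am Q E D n * n) with b | b <;>
    rw [a, b] <;> norm_num

lemma gl_pm (c : ℕ → ℕ → ℝ) (δ : ℕ → ℝ) (hc : ∀ i n, c i n = 1 ∨ c i n = -1) (n : ℕ) :
    gl c δ n = 1 ∨ gl c δ n = -1 := by
  unfold gl
  split_ifs
  · exact hc _ _
  · exact hc _ _

lemma fact_dvd_md (Q : Finset ℕ) (E : ℕ) (D : ℕ → ℝ) (F n : ℕ) :
    F ∣ md Q E D (F * ∏ p ∈ Q, p ^ (E - 1)) n := by
  unfold md
  rw [Nat.mul_div_assoc _ (am_dvd Q E D n)]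
  exact Dvd.intro _ rfl

lemma log_small (K η : ℝ) (hη : 0 < η) :
    ∀ᶠ i : ℕ in atTop, ∀ x : ℕ, 4 ^ ((i - 1) ^ 4) ≤ 3 * x →
      K * (Real.log x + 1) * ((i : ℝ) + 2) ≤ η * x := by
  have h1 : ∀ᶠ y : ℝ in atTop, Real.log y ^ 2 ≤ η / (4 * (|K| + 1)) * y := by
    have h2 := (Real.isLittleO_pow_log_id_atTop (n := 2)).bound
      (show (0 : ℝ) < η / (4 * (|K| + 1)) by positivity)
    filter_upwards [h2, eventually_ge_atTop (0 : ℝ)] with y hy hy0
    rw [Real.norm_eq_abs, abs_of_nonneg (sq_nonneg _), id, Real.norm_eq_abs, abs_of_nonneg hy0] at hy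
    exact hy
  obtain ⟨y0, hy0⟩ := Filter.eventually_atTop.mp
    (h1.and (Real.tendsto_log_atTop.eventually_ge_atTop 5))
  filter_upwards [eventually_ge_atTop (⌈|y0|⌉₊ + 5)] with i hi
  intro x hx
  have hi5 : 5 ≤ i := by omega
  obtain ⟨i', rfl⟩ : ∃ i', i = i' + 1 := ⟨i - 1, by omega⟩
  rw [Nat.add_sub_cancel] at hx
  have hxy : y0 ≤ x := by
    have h3 : i' < 4 ^ i' := Nat.lt_pow_self (by norm_num)
    have h4 : i' ≤ i' ^ 4 := by
      calc i' = i' ^ 1 := (pow_one i').symm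
        _ ≤ i' ^ 4 := Nat.pow_le_pow_right (by omega) (by norm_num)
    have h5 : 4 ^ i' ≤ 4 ^ (i' ^ 4) := Nat.pow_le_pow_right (by norm_num) h4
    have h6 : 4 * i' ≤ 3 * x := by
      have h7 : 4 * i' ≤ 4 ^ i' := by
        obtain ⟨b, rfl⟩ : ∃ b, i' = b + 1 := ⟨i' - 1, by omega⟩
        have : b < 4 ^ b := Nat.lt_pow_self (by norm_num)
        rw [pow_succ]
        omega
      omega
    have h8 : (⌈|y0|⌉₊ : ℝ) ≤ x := by
      have : ⌈|y0|⌉₊ ≤ x := by omega
      exact_mod_cast this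
    exact (le_abs_self y0).trans ((Nat.le_ceil _).trans h8)
  obtain ⟨h9, h10⟩ := hy0 x hxy
  have hx1 : 1 ≤ x := by
    have : 1 ≤ 4 ^ (i' ^ 4) := Nat.one_le_pow _ _ (by norm_num)
    omega
  have hx0 : (0 : ℝ) < x := by exact_mod_cast hx1
  have h11 : (i' : ℝ) ≤ Real.log x + 2 := by
    have h12 := i_le_log hx
    have h13 : Real.log ((3 * x : ℕ) : ℝ) = Real.log 3 + Real.log x := by
      push_cast
      rw [Real.log_mul (by norm_num) (by positivity)]
    have h14 : Real.log 3 ≤ 2 := by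
      have := Real.log_le_sub_one_of_pos (show (0 : ℝ) < 3 by norm_num)
      linarith
    rw [h13] at h12
    linarith
  have h12 : (((i' + 1 : ℕ) : ℝ) + 2) ≤ 2 * Real.log x := by push_cast; linarith
  have h13 : Real.log x + 1 ≤ 2 * Real.log x := by linarith
  have h14 : (Real.log x + 1) * (((i' + 1 : ℕ) : ℝ) + 2) ≤ 4 * Real.log x ^ 2 := by
    calc (Real.log x + 1) * (((i' + 1 : ℕ) : ℝ) + 2) ≤ (2 * Real.log x) * (2 * Real.log x) := by
          gcongr
      _ = 4 * Real.log x ^ 2 := by ring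
  have h15 : 0 ≤ (Real.log x + 1) * (((i' + 1 : ℕ) : ℝ) + 2) := by
    apply mul_nonneg (by linarith) (by positivity)
  calc K * (Real.log x + 1) * (((i' + 1 : ℕ) : ℝ) + 2)
      = K * ((Real.log x + 1) * (((i' + 1 : ℕ) : ℝ) + 2)) := by ring
    _ ≤ (|K| + 1) * ((Real.log x + 1) * (((i' + 1 : ℕ) : ℝ) + 2)) := by
        apply mul_le_mul_of_nonneg_right _ h15
        have := le_abs_self K
        linarith
    _ ≤ (|K| + 1) * (4 * (η / (4 * (|K| + 1)) * x)) := by
        apply mul_le_mul_of_nonneg_left _ (by positivity)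
        linarith
    _ = η * x := by field_simp

/-- **Realisation.** -/
theorem realise (σ : ℕ → ℝ) (hσ : ∀ p, σ p = 1 ∨ σ p = -1) (c : ℕ → ℕ → Finset ℕ → ℝ)
    (hc : JointSystem σ c) (W : ℕ → ℕ → ℝ) (hW : ∀ j, Grow (W j)) :
    ∃ f : ℕ → ℝ, (∀ n, f n = 1 ∨ f n = -1) ∧
      (∀ p : ℕ, p.Prime → DZ {n | f (p * n) ≠ σ p * f n}) ∧
      (∀ (q r : ℕ) (S : Finset ℕ), 1 ≤ q → ∀ ε : ℝ, 0 < ε → ∀ᶠ N : ℕ in atTop,
        |∑ n ∈ (Ioc 0 N).filter (fun n => n ≡ r [MOD q]), ∏ s ∈ S, f (n + s) - c q r S * N|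
          ≤ ε * N) ∧
      ∃ m : ℕ → ℕ, (∀ d : ℕ, 1 ≤ d → ∀ᶠ n in atTop, 1 ≤ m n ∧ d ∣ m n) ∧
        ∀ (j : ℕ) (S : Finset ℕ), ∀ ε : ℝ, 0 < ε → ∀ᶠ N : ℕ in atTop,
          |∑ n ∈ Ioc 0 N, W j n * (∏ s ∈ S, f (n + s) - m n * c (m n) n S)| ≤ ε * N := by
  classical
  -- weights
  obtain ⟨U, hU1, hU2⟩ : ∃ U : (ℕ ⊕ (ℕ × ℕ)) → ℕ → ℝ, (∀ j, U (Sum.inl j) = W j) ∧
      ∀ q r n, U (Sum.inr (q, r)) n = if n ≡ r [MOD q] then 1 else 0 :=
    ⟨fun s n => match s with
      | Sum.inl j => W j n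
      | Sum.inr (q, r) => if n ≡ r [MOD q] then 1 else 0, fun _ => rfl, fun _ _ _ => rfl⟩
  obtain ⟨e, he⟩ := exists_surjective_nat (ℕ ⊕ (ℕ × ℕ))
  have hUg : ∀ s, Grow (U s) := by
    rintro (j | ⟨q, r⟩)
    · rw [hU1]; exact hW j
    · refine ⟨1, one_pos, fun n => ?_⟩
      have hn : (0 : ℝ) ≤ n := by positivity
      rw [hU2]
      split_ifs
      · norm_num
      · norm_num; linarith
  -- parameters of the stages
  set Q : ℕ → Finset ℕ := fun k => (Finset.range (k + 1)).filter Nat.Prime with hQ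
  have hQp : ∀ k, ∀ p ∈ Q k, p.Prime := fun k p hp => (Finset.mem_filter.mp hp).2
  have hkpos : ∀ k : ℕ, (0 : ℝ) < 1 / ((k : ℝ) + 1) := fun k => by positivity
  set A : ℕ → ℕ := fun k => ∏ p ∈ Q k, p ^ (k + 1 - 1) with hA
  have hA1 : ∀ k, 1 ≤ A k := fun k => Finset.prod_pos fun p hp => pow_pos (hQp k p hp).pos _
  set M : ℕ → ℕ := fun k => k.factorial * A k with hM
  have hM1 : ∀ k, 1 ≤ M k := fun k => Nat.mul_pos k.factorial_pos (hA1 k)
  have hAM : ∀ k, ∏ p ∈ Q k, p ^ (k + 1 - 1) ∣ M k := fun k => Dvd.intro_left _ rfl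
  choose D B hB0 _ hDdil hlev using fun k : ℕ =>
    level_of σ hσ (Q k) (hQp k) (k + 1) (by omega) (kron_gen (Q k) (hQp k))
  choose K hK y0 hstage using fun k : ℕ =>
    stage_j σ hσ c hc (Q k) (hQp k) (k + 1) (D k) (M k) (hM1 k) (hAM k) (B k) (hlev k)
      (fun t => U (e t)) (fun t => hUg (e t)) k
  choose X hX1 hX2 using fun (k Y0 : ℕ) (h : y0 k ≤ Y0) (Y1 : ℕ) => hstage k Y0 h Y1
  choose Δ hΔ1 mΔ hmΔ using fun k : ℕ =>
    kron_gen (Q k) (hQp k) (fun _ => 0) (1 / ((k : ℝ) + 1)) (hkpos k) 1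
  -- constants for averages in progressions
  have hkap : ∀ (k q r : ℕ) (S : Finset ℕ), ∃ K' : ℝ, 1 ≤ q → q ≤ k → ∀ x : ℕ, 1 ≤ x →
      |∑ n ∈ (Ioc 0 x).filter (fun n => n ≡ r [MOD q]), kap c (Q k) (k + 1) (D k) (M k) S n
        - c q r S * x| ≤ K' * (Real.log x + 1) := by
    intro k q r S
    by_cases h : 1 ≤ q ∧ q ≤ k
    · obtain ⟨K', _, hK'⟩ := kap_avg σ c hc (Q k) (hQp k) (k + 1) (D k) (B k) (hlev k) (M k) q r
        (hM1 k) h.1 (Nat.mul_dvd_mul_right (Nat.dvd_factorial h.1 h.2) _) S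
      exact ⟨K', fun _ _ => hK'⟩
    · exact ⟨0, fun h1 h2 => absurd ⟨h1, h2⟩ h⟩
  choose K' hK' using hkap
  have hgood : ∀ k, ∀ᶠ i : ℕ in atTop,
      Δ k ≤ i ∧ y0 k ≤ 2 ^ i ∧ (K k * (1 / Real.sqrt 2) ^ i) * ((i : ℝ) + 2) ≤ 1 / ((k : ℝ) + 1) ∧
      (∀ x : ℕ, 4 ^ ((i - 1) ^ 4) ≤ 3 * x →
        B k * (Real.log x + 1) * ((i : ℝ) + 2) ≤ 1 / ((k : ℝ) + 1) * x) ∧
      (∀ q ∈ Finset.range (k + 1), ∀ r ∈ Finset.range (k + 1),
        ∀ S ∈ (Finset.range (k + 1)).powerset, ∀ x : ℕ, 4 ^ ((i - 1) ^ 4) ≤ 3 * x →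
        K' k q r S * (Real.log x + 1) * ((i : ℝ) + 2) ≤ 1 / ((k : ℝ) + 1) * x) ∧
      3 * (2 ^ i) ^ 8 ≤ 4 ^ ((i - 1) ^ 4) := by
    intro k
    have hs2 : 0 ≤ 1 / Real.sqrt 2 ∧ 1 / Real.sqrt 2 < 1 := by
      refine ⟨by positivity, ?_⟩
      rw [div_lt_one (by positivity)]
      rw [Real.lt_sqrt (by norm_num)]; norm_num
    have ev2 : ∀ᶠ i : ℕ in atTop, ∀ q ∈ Finset.range (k + 1), ∀ r ∈ Finset.range (k + 1),
        ∀ S ∈ (Finset.range (k + 1)).powerset, ∀ x : ℕ, 4 ^ ((i - 1) ^ 4) ≤ 3 * x →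
        K' k q r S * (Real.log x + 1) * ((i : ℝ) + 2) ≤ 1 / ((k : ℝ) + 1) * x :=
      (Finset.eventually_all _).mpr fun q _ => (Finset.eventually_all _).mpr fun r _ =>
        (Finset.eventually_all _).mpr fun S _ => log_small _ _ (hkpos k)
    filter_upwards [tendsto_natCast_atTop_atTop.eventually_ge_atTop (Δ k),
      eventually_ge_atTop (y0 k), lin_geom (K k) _ _ hs2.1 hs2.2 (hkpos k),
      log_small (B k) _ (hkpos k), ev2, pow_gap 2] with i h1 h2 h3 h4 h5 h6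
    exact ⟨h1, h2.trans (Nat.lt_two_pow_self).le, h3, h4, h5, h6⟩
  obtain ⟨t, ht, htg⟩ := diag _ hgood
  -- the functions of the stages
  set XX : ℕ → ℕ → ℝ := fun i => if h : y0 (t i) ≤ 2 ^ i then X (t i) (2 ^ i) h (2 ^ gm i)
    else fun _ => 1 with hXX
  have hXXpm : ∀ i n, XX i n = 1 ∨ XX i n = -1 := by
    intro i n
    by_cases h : y0 (t i) ≤ 2 ^ i
    · simp only [hXX, h, dif_pos]
      exact hX1 _ _ h _ n
    · left
      simp only [hXX, h, dif_neg, not_false_eq_true]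
  set C : ℕ → ℕ → ℝ := fun i => cs σ (Q (t i)) (t i + 1) (D (t i)) (XX i) with hC
  have hCpm : ∀ i n, C i n = 1 ∨ C i n = -1 := fun i n => cs_pm σ hσ _ _ _ _ (hXXpm i) n
  set δ : ℕ → ℝ := fun i => Δ (t i) with hδ
  have hsmall : ∀ η : ℝ, 0 < η → ∀ᶠ i in atTop, 1 / (((t i : ℕ) : ℝ) + 1) ≤ η := by
    intro η hη
    have h1 : Tendsto (fun i => (((t i : ℕ) : ℝ))) atTop atTop :=
      tendsto_natCast_atTop_atTop.comp ht
    filter_upwards [h1.eventually_ge_atTop (1 / η)] with i hi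
    rw [div_le_iff₀ (by positivity)]
    rw [div_le_iff₀ hη] at hi
    nlinarith
  have slow : ∀ᶠ i : ℕ in atTop, 1 ≤ δ i ∧ δ i ≤ i := by
    filter_upwards [htg] with i hi
    exact ⟨hΔ1 _, hi.1⟩
  -- for every property of the stages which holds eventually: both neighbours
  have two : ∀ P : ℕ → Prop, (∀ᶠ i in atTop, P i) → ∀ᶠ i : ℕ in atTop,
      ∀ i' : ℕ, (i' = i ∨ i' = i + 1) → P i' := by
    intro P hP
    filter_upwards [hP, (tendsto_add_atTop_nat 1).eventually hP] with i h1 h2 i' hi'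
    rcases hi' with rfl | rfl
    · exact h1
    · exact h2
  obtain ⟨kS, hkS⟩ : ∃ kS : Finset ℕ → ℕ → ℕ → ℝ, ∀ S i n, kS S i n
    = kap c (Q (t i)) (t i + 1) (D (t i)) (M (t i)) S n := ⟨_, fun _ _ _ => rfl⟩
  -- the correlations of the stages
  have hst : ∀ (u : ℕ ⊕ (ℕ × ℕ)) (S : Finset ℕ), ∀ ε : ℝ, 0 < ε → ∀ᶠ i : ℕ in atTop, ∀ x : ℕ,
      4 ^ (i ^ 4) ≤ 3 * x → x ≤ 4 ^ ((i + 1) ^ 4 + i) → ∀ i' : ℕ, (i' = i ∨ i' = i + 1) →
      |∑ n ∈ Ioc 0 x, U u n * (∏ s ∈ S, C i' (n + s) - kS S i' n)| * ((i : ℝ) + 2) ≤ ε * x := by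
    intro u S ε hε
    simp only [hkS]
    obtain ⟨j, hj⟩ := he u
    have hSmax : ∀ s ∈ S, s < S.sup id + 1 := fun s hs => Nat.lt_succ_of_le (Finset.le_sup (f := id) hs)
    filter_upwards [two _ htg, two _ (hsmall ε hε),
      two _ (ht.eventually_ge_atTop (j + S.sup id))] with i h1 h2 h3 x hx1 hx2 i' hi'
    obtain ⟨_, g2, g3, _, _, g6⟩ := h1 i' hi'
    have g7 := h2 i' hi'
    have g8 := h3 i' hi'
    have hii : i' - 1 ≤ i ∧ i ≤ i' := by rcases hi' with rfl | rfl <;> omega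
    have hS : S ⊆ Finset.range (t i' + 1) := by
      intro s hs
      rw [Finset.mem_range]
      have := hSmax s hs
      omega
    have hxlow : (2 ^ i') ^ 8 ≤ x := by
      have h5 : 4 ^ ((i' - 1) ^ 4) ≤ 4 ^ (i ^ 4) :=
        Nat.pow_le_pow_right (by norm_num) (Nat.pow_le_pow_left hii.1 4)
      omega
    have hxup : x ≤ (2 ^ gm i') ^ 8 := by
      refine hx2.trans (le_trans ?_ (gm_big i'))
      apply Nat.pow_le_pow_right (by norm_num)
      have : (i + 1) ^ 4 ≤ (i' + 1) ^ 4 := Nat.pow_le_pow_left (by omega) 4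
      omega
    have h4 := hX2 (t i') (2 ^ i') g2 (2 ^ gm i') j (by omega) S hS x hxlow hxup
    have hXe : XX i' = X (t i') (2 ^ i') g2 (2 ^ gm i') := by
      simp only [hXX, g2, dif_pos]
    rw [hj] at h4
    have h5 : |∑ n ∈ Ioc 0 x, U u n * (∏ s ∈ S, C i' (n + s)
        - kap c (Q (t i')) (t i' + 1) (D (t i')) (M (t i')) S n)|
        ≤ K (t i') / Real.sqrt ((2 ^ i' : ℕ) : ℝ) * x := by
      simp only [hC, hXe]
      exact h4
    have hsqrt : K (t i') / Real.sqrt ((2 ^ i' : ℕ) : ℝ) = K (t i') * (1 / Real.sqrt 2) ^ i' := by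
      have e1 : ((2 ^ i' : ℕ) : ℝ) = ((Real.sqrt 2) ^ i') ^ 2 := by
        rw [← pow_mul, mul_comm i' 2, pow_mul, Real.sq_sqrt (by norm_num)]
        push_cast; rfl
      rw [e1, Real.sqrt_sq (by positivity), div_pow, one_pow, mul_one_div]
    rw [hsqrt] at h5
    have hiR : (i : ℝ) + 2 ≤ (i' : ℝ) + 2 := by
      have : (i : ℝ) ≤ i' := by exact_mod_cast hii.2
      linarith
    have hx0 : (0 : ℝ) ≤ x := by positivity
    calc |∑ n ∈ Ioc 0 x, U u n * (∏ s ∈ S, C i' (n + s)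
          - kap c (Q (t i')) (t i' + 1) (D (t i')) (M (t i')) S n)| * ((i : ℝ) + 2)
        ≤ (K (t i') * (1 / Real.sqrt 2) ^ i' * x) * ((i' : ℝ) + 2) := by
          apply mul_le_mul h5 hiR (by positivity) (mul_nonneg (mul_nonneg (hK _).le (by positivity)) hx0)
      _ = (K (t i') * (1 / Real.sqrt 2) ^ i') * ((i' : ℝ) + 2) * x := by ring
      _ ≤ 1 / ((t i' : ℝ) + 1) * x := mul_le_mul_of_nonneg_right g3 hx0
      _ ≤ ε * x := mul_le_mul_of_nonneg_right g7 hx0
  refine ⟨gl C δ, gl_pm C δ hCpm, ?_, ?_, glN (fun i n => md (Q (t i)) (t i + 1) (D (t i)) (M (t i)) n) δ,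
    ?_, ?_⟩
  · -- dilation relations
    intro p hp
    refine gl_dilate (σ p) C δ hCpm slow p hp ?_ ?_
    · intro η hη
      filter_upwards [hsmall η hη, ht.eventually_ge_atTop p] with i h1 h2
      have hpQ : p ∈ Q (t i) := by
        simp only [hQ, Finset.mem_filter, Finset.mem_range]
        exact ⟨by omega, hp⟩
      have h3 := hmΔ (t i) p hpQ
      rw [sub_zero] at h3
      exact ⟨mΔ (t i) p, h3.trans h1⟩
    · intro ε hε
      filter_upwards [two _ htg, two _ (hsmall (ε / 101) (by positivity)),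
        two _ (ht.eventually_ge_atTop p)] with i h1 h2 h3 N hN1 hN2 i' hi'
      obtain ⟨_, _, _, g4, _, _⟩ := h1 i' hi'
      have g7 := h2 i' hi'
      have hpQ : p ∈ Q (t i') := by
        simp only [hQ, Finset.mem_filter, Finset.mem_range]
        have := h3 i' hi'
        exact ⟨by omega, hp⟩
      have hii : i' - 1 ≤ i := by rcases hi' with rfl | rfl <;> omega
      have hN1' : 1 ≤ N := le_trans (Nat.one_le_pow _ _ (by norm_num)) hN1
      have hlow : 4 ^ ((i' - 1) ^ 4) ≤ 3 * N := by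
        have h5 : 4 ^ ((i' - 1) ^ 4) ≤ 4 ^ (i ^ 4) :=
          Nat.pow_le_pow_right (by norm_num) (Nat.pow_le_pow_left hii 4)
        omega
      have h5 : cnt {n | C i' (p * n) ≠ σ p * C i' n} N
          ≤ cnt {n | ¬ (am (Q (t i')) (t i' + 1) (D (t i')) (p * n) * p
            = am (Q (t i')) (t i' + 1) (D (t i')) n ∧ sg σ (Q (t i')) (t i' + 1) (D (t i')) (p * n)
            = σ p * sg σ (Q (t i')) (t i' + 1) (D (t i')) n)} N := by
        apply cnt_mono
        intro n hn hcon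
        exact hn (cs_dilate σ _ _ _ _ p n hcon.1 hcon.2)
      have h6 := hDdil (t i') p hpQ N hN1'
      have hlogN : 0 ≤ Real.log N := Real.log_nonneg (by exact_mod_cast hN1')
      have h7 := g4 N hlow
      have h8 : B (t i') * (Real.log N + 1) ≤ 1 / ((t i' : ℝ) + 1) * N := by
        refine le_trans ?_ h7
        have h9 : 0 ≤ B (t i') * (Real.log N + 1) := mul_nonneg (hB0 _).le (by linarith)
        have h10 : (0 : ℝ) ≤ i' := by positivity
        nlinarith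
      have h9 : (100 : ℝ) / ((t i' + 1 : ℕ) : ℝ) * N = 100 * (1 / ((t i' : ℝ) + 1) * N) := by
        push_cast; ring
      have hN0 : (0 : ℝ) ≤ N := by positivity
      have h10 := mul_le_mul_of_nonneg_right g7 hN0
      rw [h9] at h6
      have h11 : ε / 101 * (N : ℝ) = ε * N / 101 := by ring
      rw [h11] at h10
      linarith
  · -- averages in progressions
    intro q r S hq ε hε
    have hconst : ∀ n, gl (fun _ _ => (q : ℝ) * c q r S) δ n = (q : ℝ) * c q r S := by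
      intro n; unfold gl; split_ifs <;> rfl
    have hqc := hc.abs_le q r hq S
    obtain ⟨K1, _, hK1⟩ := kap_avg σ c hc ∅ (by simp) 1 (fun _ => 0) 0 (fun N _ => by
      simp [am, sg]) q q r hq hq (by simp) ∅
    have hcount : ∀ x : ℕ, 1 ≤ x →
        |(((Ioc 0 x).filter (fun n => n ≡ r [MOD q])).card : ℝ) - x / q| ≤ K1 * (Real.log x + 1) := by
      intro x hx
      have h1 := hK1 x hx
      have h2 : ∀ n, kap c ∅ 1 (fun _ => 0) q ∅ n = 1 := by
        intro n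
        unfold kap md am
        simp only [Finset.prod_empty, Nat.div_one]
        exact hc.norm_empty q n hq
      simp only [h2, Finset.sum_const, nsmul_eq_mul, mul_one] at h1
      rw [hc.empty q r hq, one_div_mul_eq_div] at h1
      exact h1
    have hcor : ∀ ε : ℝ, 0 < ε → ∀ᶠ i : ℕ in atTop, ∀ x : ℕ, 4 ^ (i ^ 4) ≤ 3 * x →
        x ≤ 4 ^ ((i + 1) ^ 4 + i) → ∀ i' : ℕ, (i' = i ∨ i' = i + 1) →
        |∑ n ∈ Ioc 0 x, U (Sum.inr (q, r)) n * (∏ s ∈ S, C i' (n + s)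
          - (fun _ _ => (q : ℝ) * c q r S) i' n)| * ((i : ℝ) + 2) ≤ ε * x := by
      intro ε hε
      filter_upwards [hst (Sum.inr (q, r)) S (ε / 3) (by positivity), two _ htg,
        two _ (hsmall (ε / 3) (by positivity)), two _ (ht.eventually_ge_atTop (q + r + S.sup id)),
        two _ (log_small K1 (ε / 3) (by positivity))] with i h1 h2 h3 h4 h5 x hx1 hx2 i' hi'
      simp only [hkS] at h1
      obtain ⟨_, _, _, _, g5, _⟩ := h2 i' hi'
      have g7 := h3 i' hi'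
      have g8 := h4 i' hi'
      have hii : i' - 1 ≤ i ∧ i ≤ i' := by rcases hi' with rfl | rfl <;> omega
      have hx1' : 1 ≤ x := by
        have : 1 ≤ 4 ^ (i ^ 4) := Nat.one_le_pow _ _ (by norm_num)
        omega
      have hlow : 4 ^ ((i' - 1) ^ 4) ≤ 3 * x := by
        have h5 : 4 ^ ((i' - 1) ^ 4) ≤ 4 ^ (i ^ 4) :=
          Nat.pow_le_pow_right (by norm_num) (Nat.pow_le_pow_left hii.1 4)
        omega
      have hS : S ∈ (Finset.range (t i' + 1)).powerset := by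
        rw [Finset.mem_powerset]
        intro s hs
        rw [Finset.mem_range]
        have : s ≤ S.sup id := Finset.le_sup (f := id) hs
        omega
      have g9 := g5 q (Finset.mem_range.mpr (by omega)) r (Finset.mem_range.mpr (by omega)) S hS x hlow
      have g10 := hK' (t i') q r S hq (by omega) x hx1'
      have g11 := hcount x hx1'
      have g12 := h5 i' hi' x hlow
      have g13 := h1 x hx1 hx2 i' hi'
      set S1 : ℝ := ∑ n ∈ Ioc 0 x, U (Sum.inr (q, r)) n * (∏ s ∈ S, C i' (n + s)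
        - kap c (Q (t i')) (t i' + 1) (D (t i')) (M (t i')) S n) with hS1
      set S2 : ℝ := ∑ n ∈ (Ioc 0 x).filter (fun n => n ≡ r [MOD q]),
        kap c (Q (t i')) (t i' + 1) (D (t i')) (M (t i')) S n - c q r S * x with hS2
      set S3 : ℝ := (((Ioc 0 x).filter (fun n => n ≡ r [MOD q])).card : ℝ) - x / q with hS3
      have hq0 : (q : ℝ) ≠ 0 := by
        have : q ≠ 0 := by omega
        exact_mod_cast this
      have hsum : ∑ n ∈ Ioc 0 x, U (Sum.inr (q, r)) n * (∏ s ∈ S, C i' (n + s)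
          - (fun _ _ => (q : ℝ) * c q r S) i' n) = S1 + S2 - ((q : ℝ) * c q r S) * S3 := by
        have e1 : ∀ g : ℕ → ℝ, ∑ n ∈ Ioc 0 x, U (Sum.inr (q, r)) n * g n
            = ∑ n ∈ (Ioc 0 x).filter (fun n => n ≡ r [MOD q]), g n := by
          intro g
          rw [Finset.sum_filter]
          refine Finset.sum_congr rfl fun n _ => ?_
          rw [hU2]
          split_ifs <;> ring
        rw [hS1, hS2, hS3, e1, e1]
        rw [Finset.sum_sub_distrib, Finset.sum_sub_distrib, Finset.sum_const, nsmul_eq_mul]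
        field_simp
        ring
      rw [hsum]
      have t1 : |S1 + S2 - ((q : ℝ) * c q r S) * S3| ≤ |S1| + |S2| + |S3| := by
        refine (abs_sub _ _).trans ?_
        have t2 := abs_add_le S1 S2
        have t3 : |(q : ℝ) * c q r S * S3| ≤ 1 * |S3| := by
          rw [abs_mul]
          exact mul_le_mul_of_nonneg_right hqc (abs_nonneg _)
        linarith
      have hiR : (i : ℝ) + 2 ≤ (i' : ℝ) + 2 := by
        have : (i : ℝ) ≤ i' := by exact_mod_cast hii.2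
        linarith
      have hi0 : (0 : ℝ) ≤ (i : ℝ) + 2 := by positivity
      have hx0 : (0 : ℝ) ≤ x := by positivity
      have t2 : |S2| * ((i : ℝ) + 2) ≤ ε / 3 * x := by
        calc |S2| * ((i : ℝ) + 2) ≤ |S2| * ((i' : ℝ) + 2) :=
              mul_le_mul_of_nonneg_left hiR (abs_nonneg _)
          _ ≤ (K' (t i') q r S * (Real.log x + 1)) * ((i' : ℝ) + 2) :=
              mul_le_mul_of_nonneg_right g10 (by positivity)
          _ ≤ 1 / ((t i' : ℝ) + 1) * x := g9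
          _ ≤ ε / 3 * x := mul_le_mul_of_nonneg_right g7 hx0
      have t3 : |S3| * ((i : ℝ) + 2) ≤ ε / 3 * x := by
        calc |S3| * ((i : ℝ) + 2) ≤ |S3| * ((i' : ℝ) + 2) :=
              mul_le_mul_of_nonneg_left hiR (abs_nonneg _)
          _ ≤ (K1 * (Real.log x + 1)) * ((i' : ℝ) + 2) :=
              mul_le_mul_of_nonneg_right g11 (by positivity)
          _ ≤ ε / 3 * x := g12
      calc |S1 + S2 - ((q : ℝ) * c q r S) * S3| * ((i : ℝ) + 2)
          ≤ (|S1| + |S2| + |S3|) * ((i : ℝ) + 2) := mul_le_mul_of_nonneg_right t1 hi0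
        _ = |S1| * ((i : ℝ) + 2) + |S2| * ((i : ℝ) + 2) + |S3| * ((i : ℝ) + 2) := by ring
        _ ≤ ε / 3 * x + ε / 3 * x + ε / 3 * x := add_le_add (add_le_add g13 t2) t3
        _ = ε * x := by ring
    have hmain := gl_corr_gen C (fun _ _ => (q : ℝ) * c q r S) δ hCpm slow (U (Sum.inr (q, r)))
      (hUg (Sum.inr (q, r))) S hcor (ε / 2) (by positivity)
    have hlogev : ∀ᶠ N : ℕ in atTop, K1 * (Real.log N + 1) ≤ ε / 2 * N := by
      have h2 : ∀ᶠ y : ℝ in atTop, Real.log y ≤ ε / (4 * (|K1| + 1)) * y := by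
        have h3 := Real.isLittleO_log_id_atTop.bound
          (show (0 : ℝ) < ε / (4 * (|K1| + 1)) by positivity)
        filter_upwards [h3, eventually_ge_atTop (0 : ℝ)] with y hy hy0
        rw [id, Real.norm_eq_abs y, abs_of_nonneg hy0] at hy
        exact (le_abs_self _).trans hy
      have h3 := (tendsto_natCast_atTop_atTop (R := ℝ)).eventually
        (h2.and (Real.tendsto_log_atTop.eventually_ge_atTop 1))
      filter_upwards [h3] with N hN
      obtain ⟨hN1, hN2⟩ := hN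
      have hK1' := le_abs_self K1
      have h4 : (|K1| + 1) * (ε / (4 * (|K1| + 1)) * N) = ε / 4 * N := by field_simp
      have h5 := mul_le_mul_of_nonneg_left hN1 (show (0 : ℝ) ≤ |K1| + 1 by positivity)
      rw [h4] at h5
      nlinarith
    filter_upwards [hmain, hlogev, eventually_ge_atTop 1] with N hN hN2 hN1
    simp only [hconst] at hN
    have e1 : ∑ n ∈ Ioc 0 N, U (Sum.inr (q, r)) n * (∏ s ∈ S, gl C δ (n + s) - (q : ℝ) * c q r S)
        = (∑ n ∈ (Ioc 0 N).filter (fun n => n ≡ r [MOD q]), ∏ s ∈ S, gl C δ (n + s))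
          - (((Ioc 0 N).filter (fun n => n ≡ r [MOD q])).card : ℝ) * ((q : ℝ) * c q r S) := by
      have e2 : ∀ g : ℕ → ℝ, ∑ n ∈ Ioc 0 N, U (Sum.inr (q, r)) n * g n
          = ∑ n ∈ (Ioc 0 N).filter (fun n => n ≡ r [MOD q]), g n := by
        intro g
        rw [Finset.sum_filter]
        refine Finset.sum_congr rfl fun n _ => ?_
        rw [hU2]
        split_ifs <;> ring
      rw [e2, Finset.sum_sub_distrib, Finset.sum_const, nsmul_eq_mul]
    rw [e1] at hN
    have g11 := hcount N hN1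
    set S3 : ℝ := (((Ioc 0 N).filter (fun n => n ≡ r [MOD q])).card : ℝ) - N / q with hS3
    have hq0 : (q : ℝ) ≠ 0 := by
      have : q ≠ 0 := by omega
      exact_mod_cast this
    have e3 : (((Ioc 0 N).filter (fun n => n ≡ r [MOD q])).card : ℝ) * ((q : ℝ) * c q r S)
        = c q r S * N + (q : ℝ) * c q r S * S3 := by
      rw [hS3]
      field_simp
      ring
    rw [e3] at hN
    have t3 : |(q : ℝ) * c q r S * S3| ≤ 1 * |S3| := by
      rw [abs_mul]
      exact mul_le_mul_of_nonneg_right hqc (abs_nonneg _)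
    have t4 : |∑ n ∈ (Ioc 0 N).filter (fun n => n ≡ r [MOD q]), ∏ s ∈ S, gl C δ (n + s) - c q r S * N|
        ≤ |(∑ n ∈ (Ioc 0 N).filter (fun n => n ≡ r [MOD q]), ∏ s ∈ S, gl C δ (n + s))
          - (c q r S * N + (q : ℝ) * c q r S * S3)| + |(q : ℝ) * c q r S * S3| := by
      have e4 : ∑ n ∈ (Ioc 0 N).filter (fun n => n ≡ r [MOD q]), ∏ s ∈ S, gl C δ (n + s) - c q r S * N
          = ((∑ n ∈ (Ioc 0 N).filter (fun n => n ≡ r [MOD q]), ∏ s ∈ S, gl C δ (n + s))
          - (c q r S * N + (q : ℝ) * c q r S * S3)) + (q : ℝ) * c q r S * S3 := by ring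
      rw [e4]
      exact abs_add_le _ _
    linarith
  · -- the modulus
    intro d hd
    have hI : Tendsto I atTop atTop := by
      rw [tendsto_atTop]
      intro b
      filter_upwards [eventually_ge_atTop (4 ^ ((b * b) * (b * b)))] with n hn
      unfold I
      exact Nat.le_sqrt.mpr (J_ge n (b * b) hn)
    have h1 := hI.eventually (two _ (ht.eventually_ge_atTop d))
    filter_upwards [h1] with n hn
    have h2 : ∀ i, d ≤ t i → 1 ≤ md (Q (t i)) (t i + 1) (D (t i)) (M (t i)) n ∧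
        d ∣ md (Q (t i)) (t i + 1) (D (t i)) (M (t i)) n := by
      intro i hi
      refine ⟨md_pos _ _ _ _ (hM1 _) (hAM _) n, ?_⟩
      exact (Nat.dvd_factorial hd hi).trans (fact_dvd_md (Q (t i)) (t i + 1) (D (t i)) _ n)
    unfold glN
    split_ifs
    · exact h2 _ (hn _ (Or.inl rfl))
    · exact h2 _ (hn _ (Or.inr rfl))
  · -- weights
    intro j S ε hε
    have hmain := gl_corr_gen C (kS S) δ hCpm slow (U (Sum.inl j)) (hUg (Sum.inl j)) S
      (hst (Sum.inl j) S) ε hε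
    have hUj : ∀ n, U (Sum.inl j) n = W j n := fun n => by rw [hU1]
    have e1 : ∀ n, gl (kS S) δ n
        = (glN (fun i n => md (Q (t i)) (t i + 1) (D (t i)) (M (t i)) n) δ n : ℝ)
          * c (glN (fun i n => md (Q (t i)) (t i + 1) (D (t i)) (M (t i)) n) δ n) n S := by
      intro n
      unfold gl glN
      simp only [hkS]
      unfold kap
      split_ifs <;> rfl
    filter_upwards [hmain] with N hN
    refine le_trans (le_of_eq ?_) hN
    congr 1
    refine Finset.sum_congr rfl fun n _ => ?_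
    rw [hUj, e1]

end Pool.Agent.Helper8.Classify
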